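import Pool.Agent.Lib_helper11.GC45.B1s
import Pool.Agent.Lib_helper90.MOD.Lay

/-!
# The lower bound of the second order term, `p ∈ [4,5]`

`∑ |D i j|² (mean of x^(p-2) on [a i, a j]) ≥ τ(0) + (p-2)/p · η(0)`.
-/

open scoped BigOperators ComplexOrder Kronecker MatrixOrder
open MeasureTheory Set Matrix

namespace Pool.Agent.RC.B1

open INE SER

variable {ι : Type} [Fintype ι] [DecidableEq ι]

/-- squared Frobenius norm -/
noncomputable def fro (M : Matrix ι ι ℂ) : ℝ := ∑ i, ∑ j, ‖M i j‖ ^ 2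

theorem fro_eq (M : Matrix ι ι ℂ) : fro M = ((Mᴴ * M).trace).re := by
  unfold fro
  rw [Matrix.trace, Complex.re_sum, Finset.sum_comm]
  refine Finset.sum_congr rfl fun j _ => ?_
  rw [Matrix.diag_apply, Matrix.mul_apply, Complex.re_sum]
  refine Finset.sum_congr rfl fun i _ => ?_
  rw [Matrix.conjTranspose_apply, RCLike.star_def, ← Complex.normSq_eq_conj_mul_self,
    Complex.ofReal_re, Complex.normSq_eq_norm_sq]

theorem fro_conj {U : Matrix ι ι ℂ} (h1 : U * Uᴴ = 1) (M : Matrix ι ι ℂ) :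
    fro (Uᴴ * M * U) = fro M := by
  rw [fro_eq, fro_eq]
  congr 1
  have e : (Uᴴ * M * U)ᴴ * (Uᴴ * M * U) = Uᴴ * (Mᴴ * (U * Uᴴ) * M * U) := by
    rw [Matrix.conjTranspose_mul, Matrix.conjTranspose_mul, Matrix.conjTranspose_conjTranspose]
    noncomm_ring
  rw [e, h1, mul_one, Matrix.trace_mul_comm]
  rw [show Mᴴ * M * U * Uᴴ = Mᴴ * M * (U * Uᴴ) by noncomm_ring, h1, mul_one]

theorem diag_le_fro (M : Matrix ι ι ℂ) : ∑ i, ‖M i i‖ ^ 2 ≤ fro M := by
  unfold fro
  refine Finset.sum_le_sum fun i _ => ?_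
  exact Finset.single_le_sum (f := fun j => ‖M i j‖ ^ 2) (fun _ _ => by positivity)
    (Finset.mem_univ i)

/-- diagonal entries of `U* diag(c) U` -/
theorem conj_dg_diag (U : Matrix ι ι ℂ) (c : ι → ℝ) (i : ι) :
    (Uᴴ * dg c * U) i i = ((∑ k, ‖U k i‖ ^ 2 * c k : ℝ) : ℂ) := by
  unfold dg
  rw [Matrix.mul_apply]
  push_cast
  refine Finset.sum_congr rfl fun k _ => ?_
  rw [Matrix.mul_diagonal, Matrix.conjTranspose_apply, RCLike.star_def]
  have : (starRingEnd ℂ) (U k i) * U k i = ((‖U k i‖ ^ 2 : ℝ) : ℂ) := by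
    rw [← Complex.normSq_eq_norm_sq, Complex.normSq_eq_conj_mul_self]
  calc (starRingEnd ℂ) (U k i) * (c k : ℂ) * U k i
      = (starRingEnd ℂ) (U k i) * U k i * (c k : ℂ) := by ring
    _ = _ := by rw [this]; push_cast; ring

theorem col_sum {U : Matrix ι ι ℂ} (h2 : Uᴴ * U = 1) (i : ι) : ∑ k, ‖U k i‖ ^ 2 = 1 := by
  have h := conj_dg_diag U (fun _ => 1) i
  have e : dg (fun _ : ι => (1 : ℝ)) = 1 := by
    unfold dg
    simp
  rw [e, mul_one, h2, Matrix.one_apply_eq] at h
  have h' : ((∑ k, ‖U k i‖ ^ 2 * 1 : ℝ) : ℂ) = ((1 : ℝ) : ℂ) := by rw [← h]; simp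
  have := Complex.ofReal_inj.1 h'
  simpa using this

/-- tangent of `b ↦ c² b^(p-2)` -/
theorem tangent {p b c : ℝ} (hp : 3 ≤ p) (hc : 0 ≤ c) (hb : c ≤ b) :
    c ^ p + (p - 2) * (c ^ (p - 1) * (b - c)) ≤ c ^ 2 * b ^ (p - 2) := by
  rcases hc.eq_or_lt with h0 | h0
  · subst h0
    rw [Real.zero_rpow (by linarith), Real.zero_rpow (by linarith)]
    simp
  · have hB := one_add_mul_self_le_rpow_one_add (s := b / c - 1)
      (by have : 1 ≤ b / c := (one_le_div h0).2 hb
          linarith) (p := p - 2) (by linarith)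
    rw [show 1 + (b / c - 1) = b / c by ring, Real.div_rpow (h0.le.trans hb) h0.le] at hB
    have e1 : c ^ p = c ^ 2 * c ^ (p - 2) := by
      rw [← Real.rpow_natCast c 2, ← Real.rpow_add h0]
      congr 1
      push_cast
      ring
    have e2 : c ^ (p - 1) = c * c ^ (p - 2) := by
      nth_rewrite 2 [← Real.rpow_one c]
      rw [← Real.rpow_add h0]
      congr 1
      ring
    have hpos : 0 < c ^ (p - 2) := Real.rpow_pos_of_pos h0 _
    have hm := mul_le_mul_of_nonneg_left hB (by positivity : 0 ≤ c ^ 2 * c ^ (p - 2))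
    calc c ^ p + (p - 2) * (c ^ (p - 1) * (b - c))
        = c ^ 2 * c ^ (p - 2) * (1 + (p - 2) * (b / c - 1)) := by
          rw [e1, e2]
          field_simp
      _ ≤ c ^ 2 * c ^ (p - 2) * (b ^ (p - 2) / c ^ (p - 2)) := hm
      _ = c ^ 2 * b ^ (p - 2) := by field_simp

theorem pp_add {p : ℝ} (hp : 0 < p) (x : ℝ) : pp p x + pp p (-x) = |x| ^ p := by
  unfold pp
  rcases le_total 0 x with h | h
  · rw [max_eq_left h, max_eq_right (by linarith), Real.zero_rpow hp.ne', add_zero,
      abs_of_nonneg h]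
  · rw [max_eq_right h, max_eq_left (by linarith), Real.zero_rpow hp.ne', zero_add,
      abs_of_nonpos h]

theorem gp_add {p : ℝ} (hp : 1 < p) (b x : ℝ) :
    gp p x * (b - x) + gp p (-x) * (b + x) = |x| ^ (p - 1) * (b - |x|) := by
  unfold gp
  rcases le_total 0 x with h | h
  · rw [max_eq_left h, max_eq_right (by linarith), Real.zero_rpow (by linarith), zero_mul,
      add_zero, abs_of_nonneg h]
  · rw [max_eq_right h, max_eq_left (by linarith), Real.zero_rpow (by linarith), zero_mul,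
      zero_add, abs_of_nonpos h]
    ring

theorem gp_continuous {p : ℝ} (hp : 1 ≤ p) : Continuous (gp p) := by
  unfold gp
  exact (continuous_id.max continuous_const).rpow_const fun x => Or.inr (by linarith)

/-- **Lower bound of the second order term** -/
theorem m1_low {p : ℝ} (h4 : 4 ≤ p) (h5 : p ≤ 5) {a : ι → ℝ} (ha : ∀ i, 0 < a i)
    {D : Matrix ι ι ℂ} (h : IsPair (dg a) D) :
    tau p (dg a) D 0 + (p - 2) / p * eta p (dg a) D 0 ≤
      ∑ i, ∑ j, ‖D i j‖ ^ 2 * hk p (a i) (a j) := by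
  have hA : (dg a).IsHermitian := h.pos.isHermitian
  have hD : D.IsHermitian := by
    have := hA.sub h.sub.isHermitian
    rwa [sub_sub_cancel] at this
  set U : Matrix ι ι ℂ := (hD.eigenvectorUnitary : Matrix ι ι ℂ) with hU
  set d : ι → ℝ := hD.eigenvalues with hd
  have h1 : U * Uᴴ = 1 := (Matrix.mem_unitaryGroup_iff).1 hD.eigenvectorUnitary.2
  have h2 : Uᴴ * U = 1 := (Matrix.mem_unitaryGroup_iff').1 hD.eigenvectorUnitary.2
  have h3 : Uᴴ * D * U = dg d := by
    have := hD.conjStarAlgAut_star_eigenvectorUnitary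
    rw [Unitary.conjStarAlgAut_star_apply] at this
    rw [hU, ← Matrix.star_eq_conjTranspose, this]
    rfl
  have hcfc : ∀ f : ℝ → ℝ, cfc f D = U * dg (fun i => f (d i)) * Uᴴ := by
    intro f
    rw [hD.cfc_eq f]
    rfl
  set s : ℝ := (p - 2) / 2 with hs
  set b : ι → ℝ := fun i => ∑ k, ‖U k i‖ ^ 2 * a k with hb
  set c : ι → ℝ := fun i => ∑ k, ‖U k i‖ ^ 2 * a k ^ s with hc
  have hBd : ∀ i, (Uᴴ * dg a * U) i i = ((b i : ℝ) : ℂ) := fun i => conj_dg_diag U a i
  have hCd : ∀ i, (Uᴴ * dg (fun k => a k ^ s) * U) i i = ((c i : ℝ) : ℂ) :=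
    fun i => conj_dg_diag U _ i
  have hdd : ∀ i, (dg d : Matrix ι ι ℂ) i i = ((d i : ℝ) : ℂ) := fun i => by
    unfold dg; rw [Matrix.diagonal_apply_eq]
  -- `|d i| ≤ b i`
  have hbd : ∀ i, |d i| ≤ b i := by
    intro i
    rw [abs_le]
    have q1 := (h.sub.conjTranspose_mul_mul_same U).diag_nonneg (i := i)
    have q2 := (h.add.conjTranspose_mul_mul_same U).diag_nonneg (i := i)
    rw [Matrix.mul_sub, Matrix.sub_mul, h3, Matrix.sub_apply, hBd, hdd, ← Complex.ofReal_sub,
      Complex.zero_le_real] at q1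
    rw [Matrix.mul_add, Matrix.add_mul, h3, Matrix.add_apply, hBd, hdd, ← Complex.ofReal_add,
      Complex.zero_le_real] at q2
    constructor <;> linarith
  -- Jensen
  have hcb : ∀ i, b i ^ s ≤ c i := by
    intro i
    have hh := Real.rpow_arith_mean_le_arith_mean_rpow Finset.univ (fun k => ‖U k i‖ ^ 2) a
      (fun _ _ => by positivity) (col_sum h2 i) (fun k _ => (ha k).le) (p := s)
      (by rw [hs]; linarith)
    exact hh
  -- the lower bound
  have hlow : ∑ i, (|d i| ^ p + (p - 2) * (|d i| ^ (p - 1) * (b i - |d i|))) ≤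
      ∑ i, ∑ j, ‖D i j‖ ^ 2 * hk p (a i) (a j) := by
    set M : Matrix ι ι ℂ := dg (fun k => a k ^ s) * D + D * dg (fun k => a k ^ s) with hM
    have hMe : ∀ i j, M i j = ((a i ^ s + a j ^ s : ℝ) : ℂ) * D i j := by
      intro i j
      rw [hM]
      unfold dg
      rw [Matrix.add_apply, Matrix.diagonal_mul, Matrix.mul_diagonal]
      push_cast
      ring
    have s1 : fro M / 4 ≤ ∑ i, ∑ j, ‖D i j‖ ^ 2 * hk p (a i) (a j) := by
      unfold fro
      rw [Finset.sum_div]
      refine Finset.sum_le_sum fun i _ => ?_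
      rw [Finset.sum_div]
      refine Finset.sum_le_sum fun j _ => ?_
      rw [hMe, norm_mul, Complex.norm_real, mul_pow, Real.norm_eq_abs, sq_abs]
      have := hk_low h4 h5 (ha i) (ha j)
      calc (a i ^ s + a j ^ s) ^ 2 * ‖D i j‖ ^ 2 / 4
          = ‖D i j‖ ^ 2 * ((a i ^ s + a j ^ s) / 2) ^ 2 := by ring
        _ ≤ _ := mul_le_mul_of_nonneg_left this (by positivity)
    have s2 : ∑ i, d i ^ 2 * c i ^ 2 ≤ fro M / 4 := by
      rw [← fro_conj h1 M]
      have e : Uᴴ * M * U = (Uᴴ * dg (fun k => a k ^ s) * U) * dg d +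
          dg d * (Uᴴ * dg (fun k => a k ^ s) * U) := by
        rw [hM, ← h3]
        calc Uᴴ * (dg (fun k => a k ^ s) * D + D * dg (fun k => a k ^ s)) * U
            = Uᴴ * dg (fun k => a k ^ s) * 1 * D * U + Uᴴ * D * 1 * dg (fun k => a k ^ s) * U := by
              noncomm_ring
          _ = Uᴴ * dg (fun k => a k ^ s) * (U * Uᴴ) * D * U +
              Uᴴ * D * (U * Uᴴ) * dg (fun k => a k ^ s) * U := by rw [h1]
          _ = _ := by noncomm_ring
      have s3 := diag_le_fro (Uᴴ * M * U)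
      have e2 : ∀ i, ‖(Uᴴ * M * U) i i‖ ^ 2 = 4 * (d i ^ 2 * c i ^ 2) := by
        intro i
        rw [e, Matrix.add_apply]
        nth_rewrite 1 [dg]
        have t1 : ((Uᴴ * dg (fun k => a k ^ s) * U) * dg d) i i = ((c i * d i : ℝ) : ℂ) := by
          rw [show (dg d : Matrix ι ι ℂ) = Matrix.diagonal fun k => (d k : ℂ) from rfl,
            Matrix.mul_diagonal, hCd]
          push_cast
          ring
        have t2 : (dg d * (Uᴴ * dg (fun k => a k ^ s) * U)) i i = ((c i * d i : ℝ) : ℂ) := by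
          rw [show (dg d : Matrix ι ι ℂ) = Matrix.diagonal fun k => (d k : ℂ) from rfl,
            Matrix.diagonal_mul, hCd]
          push_cast
          ring
        have t3 : ((Uᴴ * dg (fun k => a k ^ s) * U) * dg d) i i +
            (dg d * (Uᴴ * dg (fun k => a k ^ s) * U)) i i = ((2 * (c i * d i) : ℝ) : ℂ) := by
          rw [t1, t2]; push_cast; ring
        have t4 := congrArg (fun z : ℂ => ‖z‖ ^ 2) t3
        simp only [Complex.norm_real, Real.norm_eq_abs, sq_abs] at t4
        refine Eq.trans ?_ (t4.trans (by ring))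
        rfl
      rw [Finset.sum_congr rfl fun i _ => e2 i, ← Finset.mul_sum] at s3
      linarith
    refine le_trans (Finset.sum_le_sum fun i _ => ?_) (s2.trans s1)
    have hb0 : 0 ≤ b i := (abs_nonneg _).trans (hbd i)
    have t := tangent (p := p) (by linarith) (abs_nonneg (d i)) (hbd i)
    rw [sq_abs] at t
    refine t.trans ?_
    have e3 : b i ^ (p - 2) = (b i ^ s) ^ 2 := by
      rw [← Real.rpow_natCast, ← Real.rpow_mul hb0]
      congr 1
      rw [hs]
      push_cast
      ring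
    rw [e3]
    exact mul_le_mul_of_nonneg_left
      (pow_le_pow_left₀ (Real.rpow_nonneg hb0 s) (hcb i) 2) (sq_nonneg _)
  -- the two trace functions
  have hp0 : 0 < p := by linarith
  have htau : tau p (dg a) D 0 = ∑ i, |d i| ^ p := by
    unfold tau
    rw [Complex.ofReal_zero, zero_smul, zero_smul, sub_zero, sub_zero, LAY.trF_neg _ hD]
    unfold trF
    rw [dif_pos hD, dif_pos hD, ← Finset.sum_add_distrib]
    exact Finset.sum_congr rfl fun i _ => pp_add hp0 _
  have htr : ∀ (f : ℝ → ℝ) (X : Matrix ι ι ℂ) (x : ι → ℝ), (∀ i, (Uᴴ * X * U) i i = ((x i : ℝ) : ℂ)) →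
      ((cfc f D * X).trace).re = ∑ i, f (d i) * x i := by
    intro f X x hx
    rw [hcfc f]
    rw [show U * dg (fun i => f (d i)) * Uᴴ * X = U * (dg (fun i => f (d i)) * (Uᴴ * X)) by
      noncomm_ring, Matrix.trace_mul_comm, show dg (fun i => f (d i)) * (Uᴴ * X) * U =
        dg (fun i => f (d i)) * (Uᴴ * X * U) by noncomm_ring, Matrix.trace, Complex.re_sum]
    refine Finset.sum_congr rfl fun i _ => ?_
    rw [Matrix.diag_apply, show (dg (fun i => f (d i)) : Matrix ι ι ℂ) =
      Matrix.diagonal fun k => ((f (d k) : ℝ) : ℂ) from rfl, Matrix.diagonal_mul, hx,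
      ← Complex.ofReal_mul, Complex.ofReal_re]
  have heta : eta p (dg a) D 0 = p * ∑ i, |d i| ^ (p - 1) * (b i - |d i|) := by
    unfold eta
    rw [Complex.ofReal_zero, zero_smul, zero_smul, sub_zero, sub_zero]
    have en : cfc (gp p) (-D) = cfc (fun x => gp p (-x)) D := by
      have := cfc_comp_neg (gp p) D ((gp_continuous (by linarith)).continuousOn)
      exact this.symm
    rw [en, htr (gp p) (dg a - D) (fun i => b i - d i), htr (fun x => gp p (-x)) (dg a + D)
      (fun i => b i + d i), ← Finset.sum_add_distrib]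
    · congr 1
      exact Finset.sum_congr rfl fun i _ => gp_add (by linarith) _ _
    · intro i
      rw [Matrix.mul_add, Matrix.add_mul, h3, Matrix.add_apply, hBd, hdd]
      push_cast
      ring
    · intro i
      rw [Matrix.mul_sub, Matrix.sub_mul, h3, Matrix.sub_apply, hBd, hdd]
      push_cast
      ring
  rw [htau, heta]
  refine le_trans (le_of_eq ?_) hlow
  rw [Finset.sum_add_distrib, ← Finset.mul_sum]
  field_simp

end Pool.Agent.RC.B1
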