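import Pool.Agent.Lib_helper95.RC.Defs24

/-!
# Mean of `x^r` on `[x,y]` against the square of the mean of `x^(r/2)`, `2 ≤ r ≤ 3`
-/

open scoped BigOperators
open MeasureTheory Set

namespace Pool.Agent.RC.B1

theorem sinh_convex : ConvexOn ℝ (Ici (0 : ℝ)) Real.sinh := by
  apply MonotoneOn.convexOn_of_deriv (convex_Ici 0) Real.continuous_sinh.continuousOn
    Real.differentiable_sinh.differentiableOn
  rw [Real.deriv_sinh]
  intro x hx y hy hxy
  rw [interior_Ici] at hx hy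
  exact Real.cosh_le_cosh.2 (by rw [abs_of_pos hx, abs_of_pos hy]; exact hxy)

theorem mul_sinh_le {c t : ℝ} (hc : 1 ≤ c) (ht : 0 ≤ t) : c * Real.sinh t ≤ Real.sinh (c * t) := by
  have hc0 : 0 < c := by linarith
  have h := sinh_convex.2 (show c * t ∈ Ici (0 : ℝ) by rw [mem_Ici]; positivity)
    (self_mem_Ici (a := (0 : ℝ)))
    (show (0 : ℝ) ≤ 1 / c by positivity)
    (show (0 : ℝ) ≤ 1 - 1 / c by rw [sub_nonneg, div_le_one hc0]; exact hc) (by ring)
  simp only [smul_eq_mul, mul_zero, add_zero, Real.sinh_zero] at h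
  have e : 1 / c * (c * t) = t := by field_simp
  rw [e] at h
  calc c * Real.sinh t ≤ c * (1 / c * Real.sinh (c * t)) := mul_le_mul_of_nonneg_left h hc0.le
    _ = Real.sinh (c * t) := by field_simp

/-- the inequality in the variable `t` -/
theorem hyp {r t : ℝ} (h2 : 2 ≤ r) (h3 : r ≤ 3) (ht : 0 ≤ t) :
    Real.cosh (r / 2 * t) ^ 2 * ((r + 1) * Real.sinh t) ≤ Real.sinh ((r + 1) * t) := by
  have e1 : Real.cosh (r / 2 * t) ^ 2 = (1 + Real.cosh (r * t)) / 2 := by
    have h := Real.cosh_sq (r / 2 * t)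
    have h' := Real.cosh_two_mul (r / 2 * t)
    rw [show 2 * (r / 2 * t) = r * t by ring] at h'
    rw [h', h]
    ring
  have hp : Real.sinh ((r + 1) * t) = Real.sinh (r * t) * Real.cosh t +
      Real.cosh (r * t) * Real.sinh t := by
    rw [add_mul, one_mul, Real.sinh_add]
  have hm : Real.sinh ((r - 1) * t) = Real.sinh (r * t) * Real.cosh t -
      Real.cosh (r * t) * Real.sinh t := by
    rw [sub_mul, one_mul, Real.sinh_sub]
  have a1 := mul_sinh_le (c := r + 1) (t := t) (by linarith) ht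
  have a2 := mul_sinh_le (c := r - 1) (t := t) (by linarith) ht
  have e2 : Real.cosh (r * t) * Real.sinh t =
      (Real.sinh ((r + 1) * t) - Real.sinh ((r - 1) * t)) / 2 := by rw [hp, hm]; ring
  rw [e1]
  have e3 : (1 + Real.cosh (r * t)) / 2 * ((r + 1) * Real.sinh t) =
      (r + 1) / 2 * (Real.sinh t + Real.cosh (r * t) * Real.sinh t) := by ring
  rw [e3, e2]
  nlinarith [mul_nonneg (by linarith : (0 : ℝ) ≤ 3 - r) (sub_nonneg.2 a1),
    mul_nonneg (by linarith : (0 : ℝ) ≤ r + 1) (sub_nonneg.2 a2)]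

/-- closed form of `hk` -/
theorem hk_eq {p x y : ℝ} (hp : 2 ≤ p) (hxy : x < y) :
    hk p x y = (y ^ (p - 1) - x ^ (p - 1)) / ((p - 1) * (y - x)) := by
  unfold hk
  have hne : x - y ≠ 0 := by linarith
  have hc : (fun t : ℝ => (t * x + (1 - t) * y) ^ (p - 2)) =
      fun t => (fun u : ℝ => u ^ (p - 2)) ((x - y) * t + y) := by
    funext t
    show _ = ((x - y) * t + y) ^ (p - 2)
    congr 1
    ring
  rw [hc, intervalIntegral.integral_comp_mul_add (fun u : ℝ => u ^ (p - 2)) hne y]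
  rw [show (x - y) * 0 + y = y by ring, show (x - y) * 1 + y = x by ring,
    integral_rpow (Or.inl (by linarith)), show p - 2 + 1 = p - 1 by ring, smul_eq_mul]
  have h1 : p - 1 ≠ 0 := by linarith
  have h2 : y - x ≠ 0 := by linarith
  rw [show (x - y) = -(y - x) by ring]
  field_simp
  ring

theorem hk_self {p x : ℝ} : hk p x x = x ^ (p - 2) := by
  unfold hk
  have : (fun t : ℝ => (t * x + (1 - t) * x) ^ (p - 2)) = fun _ => x ^ (p - 2) := by
    funext t
    congr 1
    ring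
  rw [this]
  simp

theorem hk_comm (p x y : ℝ) : hk p x y = hk p y x := by
  have h : ∫ s in (0 : ℝ)..1, (fun t : ℝ => (t * y + (1 - t) * x) ^ (p - 2)) (1 - s) =
      ∫ s in (0 : ℝ)..1, (fun t : ℝ => (t * y + (1 - t) * x) ^ (p - 2)) s := by
    rw [intervalIntegral.integral_comp_sub_left (fun t : ℝ => (t * y + (1 - t) * x) ^ (p - 2)) 1,
      sub_self, sub_zero]
  unfold hk
  rw [← h]
  congr 1
  funext t
  show _ = ((1 - t) * y + (1 - (1 - t)) * x) ^ (p - 2)
  congr 1
  ring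

theorem hk_low_lt {p x y : ℝ} (h4 : 4 ≤ p) (h5 : p ≤ 5) (hx : 0 < x) (hxy : x < y) :
    ((x ^ ((p - 2) / 2) + y ^ ((p - 2) / 2)) / 2) ^ 2 ≤ hk p x y := by
  have hy : 0 < y := hx.trans hxy
  set a : ℝ := (Real.log x + Real.log y) / 2 with ha
  set t : ℝ := (Real.log y - Real.log x) / 2 with ht
  have ht0 : 0 < t := by
    have := Real.log_lt_log hx hxy
    rw [ht]; linarith
  have ex : ∀ s : ℝ, x ^ s = Real.exp (s * a) * Real.exp (-(s * t)) := by
    intro s
    rw [Real.rpow_def_of_pos hx, ← Real.exp_add]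
    congr 1
    rw [ha, ht]; ring
  have ey : ∀ s : ℝ, y ^ s = Real.exp (s * a) * Real.exp (s * t) := by
    intro s
    rw [Real.rpow_def_of_pos hy, ← Real.exp_add]
    congr 1
    rw [ha, ht]; ring
  have hd : ∀ s : ℝ, y ^ s - x ^ s = Real.exp (s * a) * (2 * Real.sinh (s * t)) := by
    intro s
    rw [ex, ey, Real.sinh_eq]
    ring
  have hs : ∀ s : ℝ, (x ^ s + y ^ s) / 2 = Real.exp (s * a) * Real.cosh (s * t) := by
    intro s
    rw [ex, ey, Real.cosh_eq]
    ring
  have h1 := hd 1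
  rw [Real.rpow_one, Real.rpow_one, one_mul, one_mul] at h1
  rw [hk_eq (by linarith) hxy, hd, h1, hs]
  have hsh : 0 < Real.sinh t := Real.sinh_pos_iff.2 ht0
  have key := hyp (r := p - 2) (t := t) (by linarith) (by linarith) ht0.le
  rw [show p - 2 + 1 = p - 1 by ring] at key
  have hE : Real.exp ((p - 2) / 2 * a) ^ 2 * Real.exp a = Real.exp ((p - 1) * a) := by
    rw [sq, ← Real.exp_add, ← Real.exp_add]
    congr 1
    ring
  rw [le_div_iff₀ (by have := Real.exp_pos a; have : 0 < p - 1 := by linarith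
                      positivity)]
  calc (Real.exp ((p - 2) / 2 * a) * Real.cosh ((p - 2) / 2 * t)) ^ 2 *
        ((p - 1) * (Real.exp a * (2 * Real.sinh t)))
      = 2 * (Real.exp ((p - 2) / 2 * a) ^ 2 * Real.exp a) *
        (Real.cosh ((p - 2) / 2 * t) ^ 2 * ((p - 1) * Real.sinh t)) := by ring
    _ ≤ 2 * (Real.exp ((p - 2) / 2 * a) ^ 2 * Real.exp a) * Real.sinh ((p - 1) * t) :=
        mul_le_mul_of_nonneg_left key (by positivity)
    _ = Real.exp ((p - 1) * a) * (2 * Real.sinh ((p - 1) * t)) := by rw [hE]; ring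

theorem hk_low {p x y : ℝ} (h4 : 4 ≤ p) (h5 : p ≤ 5) (hx : 0 < x) (hy : 0 < y) :
    ((x ^ ((p - 2) / 2) + y ^ ((p - 2) / 2)) / 2) ^ 2 ≤ hk p x y := by
  rcases lt_trichotomy x y with h | h | h
  · exact hk_low_lt h4 h5 hx h
  · subst h
    rw [hk_self, show (x ^ ((p - 2) / 2) + x ^ ((p - 2) / 2)) / 2 = x ^ ((p - 2) / 2) by ring,
      ← Real.rpow_natCast, ← Real.rpow_mul hx.le]
    apply le_of_eq
    congr 1
    push_cast
    ring
  · rw [hk_comm, add_comm]
    exact hk_low_lt h4 h5 hy h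

end Pool.Agent.RC.B1
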