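import Pool.Agent.Lib_helper92.RC.S24a
import Pool.Agent.Lib_helper95.RC.Int
import Pool.Agent.Lib_helper11.GC45.B1s

/-!
# Scalar integrals for the representation on `(4,5)`
-/

open scoped BigOperators ComplexOrder Kronecker MatrixOrder Topology
open MeasureTheory Set Matrix Filter

namespace Pool.Agent.RC.REP

open S24 SER DEC

theorem icongr {f g : ℝ → ℝ} (h : IntegrableOn f (Ioi (0 : ℝ)))
    (e : ∀ r ∈ Ioi (0 : ℝ), f r = g r) : IntegrableOn g (Ioi (0 : ℝ)) :=
  h.congr_fun e measurableSet_Ioi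

/-- `log (1+y) - y + y²/2 - y³/3 + y⁴/4` -/
noncomputable def L4 (y : ℝ) : ℝ := Real.log (1 + y) - y + y ^ 2 / 2 - y ^ 3 / 3 + y ^ 4 / 4

theorem L4_zero : L4 0 = 0 := by
  unfold L4; simp

theorem hasDerivAt_L4 {y : ℝ} (hy : 0 ≤ y) : HasDerivAt L4 (y ^ 4 / (1 + y)) y := by
  have h1 : (1 + y) ≠ 0 := by linarith
  have hl : HasDerivAt (fun y : ℝ => Real.log (1 + y)) (1 / (1 + y)) y :=
    ((hasDerivAt_id y).const_add 1).log h1
  have h := (((hl.sub (hasDerivAt_id y)).add ((hasDerivAt_pow 2 y).div_const 2)).sub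
    ((hasDerivAt_pow 3 y).div_const 3)).add ((hasDerivAt_pow 4 y).div_const 4)
  refine h.congr_deriv ?_
  push_cast
  field_simp
  ring

theorem L4_bounds {t : ℝ} (ht : 0 ≤ t) : 0 ≤ L4 t ∧ L4 t ≤ t ^ 5 ∧ L4 t ≤ t ^ 4 := by
  have hc : ContinuousOn L4 (Ici 0) := fun y hy => (hasDerivAt_L4 hy).continuousAt.continuousWithinAt
  have m : ∀ (f f' : ℝ → ℝ), (∀ y, HasDerivAt f (f' y) y) → (∀ y, 0 ≤ y → y ^ 4 / (1 + y) ≤ f' y) →
      f 0 = 0 → L4 t ≤ f t := by
    intro f f' hf hle h0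
    have hm : MonotoneOn (fun y => f y - L4 y) (Ici 0) := by
      apply monotoneOn_of_deriv_nonneg (convex_Ici 0)
      · exact (continuous_iff_continuousAt.2 fun y => (hf y).continuousAt).continuousOn.sub hc
      · intro y hy
        rw [interior_Ici] at hy
        exact ((hf y).sub (hasDerivAt_L4 (le_of_lt hy))).differentiableAt.differentiableWithinAt
      · intro y hy
        rw [interior_Ici] at hy
        have hdd : deriv (fun y => f y - L4 y) y = f' y - y ^ 4 / (1 + y) :=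
          ((hf y).sub (hasDerivAt_L4 (le_of_lt hy))).deriv
        rw [hdd]
        linarith [hle y (le_of_lt hy)]
    have := hm (self_mem_Ici (a := (0 : ℝ))) (show t ∈ Ici (0 : ℝ) from ht) ht
    simp only [h0, L4_zero] at this
    linarith
  refine ⟨?_, ?_, ?_⟩
  · have hm : MonotoneOn L4 (Ici 0) := by
      apply monotoneOn_of_deriv_nonneg (convex_Ici 0) hc
      · intro y hy
        rw [interior_Ici] at hy
        exact (hasDerivAt_L4 (le_of_lt hy)).differentiableAt.differentiableWithinAt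
      · intro y hy
        rw [interior_Ici] at hy
        have hy0 : 0 < y := hy
        rw [(hasDerivAt_L4 hy0.le).deriv]
        positivity
    have := hm (self_mem_Ici (a := (0 : ℝ))) (show t ∈ Ici (0 : ℝ) from ht) ht
    rwa [L4_zero] at this
  · refine m (fun y => y ^ 5) (fun y => 5 * y ^ 4) (fun y => by simpa using hasDerivAt_pow 5 y)
      (fun y hy => ?_) (by simp)
    rw [div_le_iff₀ (by linarith)]
    nlinarith [pow_nonneg hy 4, pow_nonneg hy 5, mul_nonneg (pow_nonneg hy 4) hy]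
  · refine m (fun y => y ^ 4) (fun y => 4 * y ^ 3) (fun y => by simpa using hasDerivAt_pow 4 y)
      (fun y hy => ?_) (by simp)
    rw [div_le_iff₀ (by linarith)]
    nlinarith [pow_nonneg hy 4, pow_nonneg hy 3, mul_nonneg (pow_nonneg hy 3) hy]

/-- `∫ r^(p-5) / (1 + r)` -/
noncomputable def Bc (p : ℝ) : ℝ := bet (p - 4) 1

theorem int_one {p u : ℝ} (h4 : 4 < p) (h5 : p < 5) (hu : 0 < u) :
    IntegrableOn (fun r : ℝ => r ^ (p - 5) * (u + r)⁻¹) (Ioi 0) ∧
      ∫ r in Ioi (0 : ℝ), r ^ (p - 5) * (u + r)⁻¹ = u ^ (p - 5) * Bc p := by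
  have hm := integrableOn_majorant (α := p - 4) (c := u) (n := 1) (by linarith) hu
    (by push_cast; linarith)
  constructor
  · refine icongr (hm.const_mul u⁻¹) (fun r hr => ?_)
    have hr0 : (0 : ℝ) < r := hr
    show u⁻¹ * (r ^ (p - 4 - 1) * (u / (u + r)) ^ 1) = r ^ (p - 5) * (u + r)⁻¹
    rw [show p - 4 - 1 = p - 5 by ring, pow_one]
    field_simp
  · have h := bet_scale (p - 4) u 1 hu
    rw [show p - 4 - 1 = p - 5 by ring] at h
    simp only [pow_one, Nat.cast_one] at h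
    rw [show p - 4 - 1 = p - 5 by ring] at h
    exact h

theorem int_two {p u : ℝ} (h4 : 4 < p) (h5 : p < 5) (hu : 0 < u) :
    IntegrableOn (fun r : ℝ => r ^ (p - 5) * ((u + r) ^ 2)⁻¹) (Ioi 0) ∧
      ∫ r in Ioi (0 : ℝ), r ^ (p - 5) * ((u + r) ^ 2)⁻¹ = u ^ (p - 6) * bet (p - 4) 2 := by
  have hm := integrableOn_majorant (α := p - 4) (c := u) (n := 2) (by linarith) hu
    (by push_cast; linarith)
  constructor
  · refine icongr (hm.const_mul (u ^ 2)⁻¹) (fun r hr => ?_)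
    have hr0 : (0 : ℝ) < r := hr
    show (u ^ 2)⁻¹ * (r ^ (p - 4 - 1) * (u / (u + r)) ^ 2) = r ^ (p - 5) * ((u + r) ^ 2)⁻¹
    rw [show p - 4 - 1 = p - 5 by ring]
    field_simp
  · have h := bet_scale (p - 4) u 2 hu
    rw [show p - 4 - 1 = p - 5 by ring, show p - 4 - (2 : ℕ) = p - 6 by push_cast; ring] at h
    exact h

theorem Bc_pos {p : ℝ} (h4 : 4 < p) (h5 : p < 5) : 0 < Bc p :=
  bet_pos _ _ (by linarith) (by push_cast; linarith)

theorem bet_two {p : ℝ} (h4 : 4 < p) (h5 : p < 5) : bet (p - 4) 2 = (5 - p) * Bc p := by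
  obtain ⟨i1, v1⟩ := int_one h4 h5 one_pos
  obtain ⟨i2, v2⟩ := int_two h4 h5 one_pos
  rw [Real.one_rpow, one_mul] at v1 v2
  have hd : ∀ t : ℝ, 0 < t → HasDerivAt (fun t : ℝ => t / (1 + t)) (1 / (1 + t) ^ 2) t := by
    intro t ht
    have ht1 : (1 : ℝ) + t ≠ 0 := by linarith
    have h := (hasDerivAt_id t).div ((hasDerivAt_id t).const_add 1) ht1
    refine h.congr_deriv ?_
    show (1 * (1 + t) - t * 1) / (1 + t) ^ 2 = 1 / (1 + t) ^ 2
    congr 1
    ring
  have e1 : ∀ r ∈ Ioi (0 : ℝ), r ^ (p - 5) * (1 + r)⁻¹ - r ^ (p - 5) * ((1 + r) ^ 2)⁻¹ =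
      r ^ (p - 4 - 1 - 1) * ((fun t : ℝ => 1 / (1 + t) ^ 2) (1 / r)) := by
    intro r hr
    have hr0 : (0 : ℝ) < r := hr
    have h3 : r ^ (p - 5) = r ^ (p - 4 - 1 - 1) * r := by
      nth_rewrite 3 [← Real.rpow_one r]
      rw [← Real.rpow_add hr0]; congr 1; ring
    show _ = r ^ (p - 4 - 1 - 1) * (1 / (1 + 1 / r) ^ 2)
    rw [h3]
    field_simp
    ring
  have e2 : ∀ r ∈ Ioi (0 : ℝ), r ^ (p - 5) * (1 + r)⁻¹ =
      r ^ (p - 4 - 1) * ((fun t : ℝ => t / (1 + t)) (1 / r)) := by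
    intro r hr
    have hr0 : (0 : ℝ) < r := hr
    show _ = r ^ (p - 4 - 1) * ((1 / r) / (1 + 1 / r))
    rw [show p - 4 - 1 = p - 5 by ring]
    field_simp
    ring
  have h := gen_ibp (F := fun t => t / (1 + t)) (F' := fun t => 1 / (1 + t) ^ 2) (β := p - 4)
    (K := 1) (p := 0) (q := 1) hd
    (fun t ht => by
      rw [abs_of_nonneg (by positivity), pow_zero, mul_one, div_le_one (by linarith)]; linarith)
    (fun t ht _ => by
      rw [abs_of_nonneg (by positivity), pow_one, one_mul]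
      exact div_le_self ht.le (by linarith))
    (by push_cast; linarith) (by push_cast; linarith)
    (icongr (i1.sub i2) e1)
  rw [← setIntegral_congr_fun measurableSet_Ioi e1, ← setIntegral_congr_fun measurableSet_Ioi e2,
    integral_sub i1 i2, v1, v2] at h
  linarith

theorem gen_int_L4 {p : ℝ} (h4 : 4 < p) (h5 : p < 5) :
    IntegrableOn (fun r : ℝ => r ^ (p - 1) * L4 (1 / r)) (Ioi 0) ∧
      ∫ r in Ioi (0 : ℝ), r ^ (p - 1) * L4 (1 / r) = Bc p / p := by
  have hF : ContinuousOn L4 (Ioi 0) := fun y hy =>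
    (hasDerivAt_L4 (le_of_lt hy)).continuousAt.continuousWithinAt
  have b1 : ∀ t : ℝ, 1 ≤ t → |L4 t| ≤ 1 * t ^ 4 := fun t ht => by
    have := L4_bounds (t := t) (by linarith)
    rw [abs_of_nonneg this.1, one_mul]; exact this.2.2
  have b2 : ∀ t : ℝ, 0 < t → t ≤ 1 → |L4 t| ≤ 1 * t ^ 5 := fun t ht _ => by
    have := L4_bounds ht.le
    rw [abs_of_nonneg this.1, one_mul]; exact this.2.1
  have hi := gen_int (β := p) hF b1 b2 (by push_cast; linarith) (by push_cast; linarith)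
  refine ⟨hi, ?_⟩
  have e : ∀ r ∈ Ioi (0 : ℝ), r ^ (p - 5) * (1 + r)⁻¹ =
      r ^ (p - 1 - 1) * ((fun y : ℝ => y ^ 4 / (1 + y)) (1 / r)) := by
    intro r hr
    have hr0 : (0 : ℝ) < r := hr
    have h3 : r ^ (p - 1 - 1) = r ^ (p - 5) * r ^ 3 := by
      rw [← Real.rpow_natCast r 3, ← Real.rpow_add hr0]; congr 1; push_cast; ring
    show r ^ (p - 5) * (1 + r)⁻¹ = r ^ (p - 1 - 1) * ((1 / r) ^ 4 / (1 + 1 / r))
    rw [h3]
    field_simp
    ring
  obtain ⟨i1, v1⟩ := int_one h4 h5 one_pos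
  have i2 : IntegrableOn (fun r : ℝ => r ^ (p - 1 - 1) *
      ((fun y : ℝ => y ^ 4 / (1 + y)) (1 / r))) (Ioi 0) := i1.congr_fun e measurableSet_Ioi
  have h := gen_ibp (F := L4) (F' := fun y => y ^ 4 / (1 + y)) (β := p)
    (fun t ht => hasDerivAt_L4 ht.le) b1 b2 (by push_cast; linarith) (by push_cast; linarith) i2
  have v2 : ∫ r in Ioi (0 : ℝ), r ^ (p - 1 - 1) * ((fun y : ℝ => y ^ 4 / (1 + y)) (1 / r)) =
      Bc p := by
    rw [← setIntegral_congr_fun measurableSet_Ioi e, v1, Real.one_rpow, one_mul]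
  rw [v2] at h
  rw [h]
  field_simp

/-- `x^p` as an integral -/
theorem int_L4 {p x : ℝ} (h4 : 4 < p) (h5 : p < 5) (hx : 0 ≤ x) :
    IntegrableOn (fun r : ℝ => r ^ (p - 1) * L4 (x / r)) (Ioi 0) ∧
      ∫ r in Ioi (0 : ℝ), r ^ (p - 1) * L4 (x / r) = Bc p / p * x ^ p := by
  rcases hx.eq_or_lt with h0 | h0
  · subst h0
    have e : (fun r : ℝ => r ^ (p - 1) * L4 (0 / r)) = fun _ => 0 := by
      funext r
      rw [zero_div, L4_zero, mul_zero]
    rw [e, Real.zero_rpow (by linarith)]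
    exact ⟨integrableOn_zero, by simp⟩
  · obtain ⟨i1, v1⟩ := gen_int_L4 h4 h5
    constructor
    · have h := (integrableOn_Ioi_comp_mul_left_iff
        (fun r : ℝ => r ^ (p - 1) * L4 (x / r)) 0 h0)
      rw [mul_zero] at h
      rw [← h]
      refine icongr (i1.const_mul (x ^ (p - 1))) (fun r hr => ?_)
      have hr0 : (0 : ℝ) < r := hr
      show x ^ (p - 1) * (r ^ (p - 1) * L4 (1 / r)) = (x * r) ^ (p - 1) * L4 (x / (x * r))
      rw [Real.mul_rpow h0.le hr0.le, show x / (x * r) = 1 / r by field_simp]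
      ring
    · rw [integral_scale p x (fun r => L4 (x / r)) h0]
      have e : ∀ t ∈ Ioi (0 : ℝ), t ^ (p - 1) * L4 (x / (x * t)) = t ^ (p - 1) * L4 (1 / t) := by
        intro t ht
        have ht0 : (0 : ℝ) < t := ht
        rw [show x / (x * t) = 1 / t by field_simp]
      rw [setIntegral_congr_fun measurableSet_Ioi e, v1]
      ring

/-- kernel of the second order term -/
noncomputable def Kr (a b r : ℝ) : ℝ :=
  -(1 / ((a + r) * (b + r))) + 1 / r ^ 2 - (a + b) / r ^ 3 + (a ^ 2 + a * b + b ^ 2) / r ^ 4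

theorem int_Kr {p a b : ℝ} (h4 : 4 < p) (h5 : p < 5) (ha : 0 < a) (hb : 0 < b) :
    IntegrableOn (fun r : ℝ => r ^ (p - 1) * Kr a b r) (Ioi 0) ∧
      ∫ r in Ioi (0 : ℝ), r ^ (p - 1) * Kr a b r = (p - 1) * Bc p * hk p a b := by
  have main : ∀ a b : ℝ, 0 < a → a < b → IntegrableOn (fun r : ℝ => r ^ (p - 1) * Kr a b r) (Ioi 0) ∧
      ∫ r in Ioi (0 : ℝ), r ^ (p - 1) * Kr a b r = (p - 1) * Bc p * hk p a b := by
    intro a b ha hab
    have hb : 0 < b := ha.trans hab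
    obtain ⟨i1, v1⟩ := int_one h4 h5 ha
    obtain ⟨i2, v2⟩ := int_one h4 h5 hb
    have hne : b - a ≠ 0 := by linarith
    have e : ∀ r ∈ Ioi (0 : ℝ), b ^ 4 / (b - a) * (r ^ (p - 5) * (b + r)⁻¹) -
        a ^ 4 / (b - a) * (r ^ (p - 5) * (a + r)⁻¹) = r ^ (p - 1) * Kr a b r := by
      intro r hr
      have hr0 : (0 : ℝ) < r := hr
      have h3 : r ^ (p - 1) = r ^ (p - 5) * r ^ 4 := by
        rw [← Real.rpow_natCast r 4, ← Real.rpow_add hr0]; congr 1; push_cast; ring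
      rw [h3]
      unfold Kr
      have h6 : a + r ≠ 0 := by linarith
      have h7 : b + r ≠ 0 := by linarith
      field_simp
      ring
    have i3 := (i2.const_mul (b ^ 4 / (b - a))).sub (i1.const_mul (a ^ 4 / (b - a)))
    refine ⟨icongr i3 e, ?_⟩
    rw [← setIntegral_congr_fun measurableSet_Ioi e,
      integral_sub (i2.const_mul _) (i1.const_mul _), integral_const_mul, integral_const_mul,
      v1, v2, B1.hk_eq (by linarith) hab]
    have q1 : b ^ (p - 1) = b ^ 4 * b ^ (p - 5) := by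
      rw [← Real.rpow_natCast b 4, ← Real.rpow_add hb]; congr 1; push_cast; ring
    have q2 : a ^ (p - 1) = a ^ 4 * a ^ (p - 5) := by
      rw [← Real.rpow_natCast a 4, ← Real.rpow_add ha]; congr 1; push_cast; ring
    have q3 : p - 1 ≠ 0 := by linarith
    rw [q1, q2]
    field_simp
  rcases lt_trichotomy a b with h | h | h
  · exact main a b ha h
  · subst h
    obtain ⟨i1, v1⟩ := int_one h4 h5 ha
    obtain ⟨i2, v2⟩ := int_two h4 h5 ha
    have e : ∀ r ∈ Ioi (0 : ℝ), 4 * a ^ 3 * (r ^ (p - 5) * (a + r)⁻¹) -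
        a ^ 4 * (r ^ (p - 5) * ((a + r) ^ 2)⁻¹) = r ^ (p - 1) * Kr a a r := by
      intro r hr
      have hr0 : (0 : ℝ) < r := hr
      have h3 : r ^ (p - 1) = r ^ (p - 5) * r ^ 4 := by
        rw [← Real.rpow_natCast r 4, ← Real.rpow_add hr0]; congr 1; push_cast; ring
      rw [h3]
      unfold Kr
      have h6 : a + r ≠ 0 := by linarith
      field_simp
      ring
    have i3 := (i1.const_mul (4 * a ^ 3)).sub (i2.const_mul (a ^ 4))
    refine ⟨icongr i3 e, ?_⟩
    rw [← setIntegral_congr_fun measurableSet_Ioi e,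
      integral_sub (i1.const_mul _) (i2.const_mul _), integral_const_mul, integral_const_mul,
      v1, v2, B1.hk_self]
    have hB : bet (p - 4) 2 = (5 - p) * Bc p := bet_two h4 h5
    have q1 : a ^ (p - 5) = a ^ (p - 2) * (a ^ 3)⁻¹ := by
      rw [← Real.rpow_natCast a 3, ← Real.rpow_neg ha.le, ← Real.rpow_add ha]
      congr 1; push_cast; ring
    have q2 : a ^ (p - 6) = a ^ (p - 2) * (a ^ 4)⁻¹ := by
      rw [← Real.rpow_natCast a 4, ← Real.rpow_neg ha.le, ← Real.rpow_add ha]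
      congr 1; push_cast; ring
    rw [hB, q1, q2]
    field_simp
    ring
  · have hs : ∀ r, Kr a b r = Kr b a r := fun r => by
      unfold Kr
      rw [mul_comm (a + r), add_comm a b]
      ring
    simp only [hs]
    rw [B1.hk_comm]
    exact main b a hb h

end Pool.Agent.RC.REP
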