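import Pool.Agent.Lib_helper11.GC45.R1
import Pool.Agent.Lib_helper90.MOD.LayZ
import Pool.Agent.Lib_helper41.MOD.TZ1
import Pool.Agent.Lib_helper92.RC.Ser24b

/-!
# The representation on `(4,5)`: pointwise identities
-/

open scoped BigOperators ComplexOrder Kronecker MatrixOrder Topology ENNReal
open MeasureTheory Set Matrix Filter

namespace Pool.Agent.RC.REP

open S24 SER DEC INE LAY

variable {ι : Type} [Fintype ι] [DecidableEq ι]

/-- `∑ Φ(|λ_i|)` -/
noncomputable def ps (A D : Matrix ι ι ℂ) (r : ℝ) : ℝ :=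
  (2 * trF (fun x => Real.log (x + r)) A - trF (fun x => Real.log (x + r)) (A + D) -
    trF (fun x => Real.log (x + r)) (A - D) - tn A D 2 r) / 2

theorem hasSum_ps {A D : Matrix ι ι ℂ} (h : IsPair A D) {r : ℝ} (hr : 0 < r) :
    HasSum (fun m : ℕ => tn A D (2 * (m + 2)) r / ((2 * (m + 2) : ℕ) : ℝ)) (ps A D r) := by
  have hA := h.pos.isHermitian
  have hp := h.add.isHermitian
  have hq := h.sub.isHermitian
  have g1 := hasSum_tn h hA hp hq hr
  have g2 := (hasSum_nat_add_iff' 1).2 g1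
  simp only [Finset.sum_range_one, Nat.cast_zero, zero_add, mul_one, div_one] at g2
  have g3 := g2.mul_left (1 / 2)
  have e : 1 / 2 * (2 * ∑ i, Real.log (hA.eigenvalues i + r) -
      ∑ i, Real.log (hp.eigenvalues i + r) - ∑ i, Real.log (hq.eigenvalues i + r) -
      tn A D 2 r) = ps A D r := by
    unfold ps trF
    rw [dif_pos hA, dif_pos hp, dif_pos hq]
    ring
  rw [e] at g3
  refine g3.congr_fun ?_
  intro m
  have : 2 * (m + 1 + 1) = 2 * (m + 2) := by ring
  rw [this]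
  push_cast
  field_simp
  ring

/-- the weight of the layer cake -/
noncomputable def wt (s : ℝ) : ℝ := s ^ 3 / (1 - s ^ 2)

theorem wt_nonneg {s : ℝ} (h0 : 0 < s) (h1 : s < 1) : 0 ≤ wt s := by
  unfold wt
  have : 0 < 1 - s ^ 2 := by nlinarith
  positivity

theorem measurable_wt : Measurable wt := by
  unfold wt
  fun_prop

theorem tsum_wt {s : ℝ} (h0 : 0 < s) (h1 : s < 1) :
    ∑' m : ℕ, ENNReal.ofReal (s ^ (((2 * (m + 2) : ℕ) : ℝ) - 1)) = ENNReal.ofReal (wt s) := by
  have hs2 : s ^ 2 < 1 := by nlinarith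
  have g := (hasSum_geometric_of_lt_one (sq_nonneg s) hs2).mul_left (s ^ 3)
  have e : ∀ m : ℕ, s ^ (((2 * (m + 2) : ℕ) : ℝ) - 1) = s ^ 3 * (s ^ 2) ^ m := by
    intro m
    have : (((2 * (m + 2) : ℕ) : ℝ) - 1) = ((2 * m + 3 : ℕ) : ℝ) := by push_cast; ring
    rw [this, Real.rpow_natCast, ← pow_mul, ← pow_add]
    congr 1
    ring
  simp only [e]
  rw [← ENNReal.ofReal_tsum_of_nonneg (fun m => by positivity) g.summable, g.tsum_eq]
  congr 1

theorem cnt_eq_zero {A D : Matrix ι ι ℂ} (h : IsPair A D) (hD : D.IsHermitian) {s r : ℝ}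
    (hs : 1 ≤ s) (hr : 0 ≤ r) : cnt A D s r = 0 := by
  have key : ∀ F : Matrix ι ι ℂ, F.IsHermitian → (A - F).PosSemidef →
      trF i0 (F - (s : ℂ) • (A + (r : ℂ) • (1 : Matrix ι ι ℂ))) = 0 := by
    intro F hFh hF
    have hM : (F - (s : ℂ) • (A + (r : ℂ) • (1 : Matrix ι ι ℂ))).IsHermitian :=
      hFh.sub (isHermitian_real_smul s (h.pos.isHermitian.add (isHermitian_real_smul r
        Matrix.isHermitian_one)))
    have h0 : (0 : Matrix ι ι ℂ).IsHermitian := Matrix.isHermitian_zero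
    have hle := TZ.trF_i0_mono hM h0 (by
      have e : (0 : Matrix ι ι ℂ) - (F - (s : ℂ) • (A + (r : ℂ) • (1 : Matrix ι ι ℂ))) =
          (A - F) + ((s - 1 : ℝ) : ℂ) • A + ((s * r : ℝ) : ℂ) • (1 : Matrix ι ι ℂ) := by
        push_cast
        rw [sub_smul, one_smul, smul_add, smul_smul]
        abel
      rw [e]
      exact (hF.add (TZ.psd_smul h.pos.posSemidef (by linarith))).add
        (TZ.psd_scalar (mul_nonneg (by linarith) hr)))
    have hz : trF i0 (0 : Matrix ι ι ℂ) = 0 := by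
      have h3 := TZ.trF_affine i0 h0 0 0
      have e : (((0 : ℝ)) : ℂ) • (0 : Matrix ι ι ℂ) + (((0 : ℝ)) : ℂ) • (1 : Matrix ι ι ℂ) = 0 := by
        simp
      rw [e] at h3
      rw [h3]
      apply Finset.sum_eq_zero
      intro i _
      unfold i0
      simp
    rw [hz] at hle
    exact le_antisymm hle (trF_nonneg i0_nonneg _)
  unfold cnt
  rw [key D hD h.sub, key (-D) hD.neg (by rw [sub_neg_eq_add]; exact h.add), add_zero]

/-- layer cake for `ps` -/
theorem ofReal_ps {A D : Matrix ι ι ℂ} (h : IsPair A D) (hD : D.IsHermitian) {r : ℝ}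
    (hr : 0 < r) :
    ENNReal.ofReal (ps A D r) = ∫⁻ s in Ioo (0 : ℝ) 1,
      ENNReal.ofReal (cnt A D s r) * ENNReal.ofReal (wt s) := by
  have hs := hasSum_ps h hr
  have hnn : ∀ m : ℕ, 0 ≤ tn A D (2 * (m + 2)) r / ((2 * (m + 2) : ℕ) : ℝ) := fun m =>
    div_nonneg (tn_nonneg' h hr.le (even_two_mul _)) (Nat.cast_nonneg _)
  have e1 : ∀ m : ℕ, ENNReal.ofReal (tn A D (2 * (m + 2)) r / ((2 * (m + 2) : ℕ) : ℝ)) =
      ∫⁻ s in Ioi (0 : ℝ), ENNReal.ofReal (cnt A D s r) *
        ENNReal.ofReal (s ^ (((2 * (m + 2) : ℕ) : ℝ) - 1)) := by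
    intro m
    have hn : (0 : ℝ) < ((2 * (m + 2) : ℕ) : ℝ) := by positivity
    rw [ENNReal.ofReal_div_of_pos hn, tn_layer h.pos hD (even_two_mul _) (by positivity) hr.le,
      mul_comm, mul_div_assoc, ENNReal.div_self (by simpa using hn) ENNReal.ofReal_ne_top, mul_one]
  rw [← hs.tsum_eq, ENNReal.ofReal_tsum_of_nonneg hnn hs.summable]
  simp only [e1]
  have mc : Measurable fun s : ℝ => ENNReal.ofReal (cnt A D s r) := by
    have := (measurable_cnt h.pos.isHermitian hD).comp (measurable_id.prodMk (measurable_const (a := r)))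
    exact Measurable.ennreal_ofReal this
  rw [← lintegral_tsum]
  · rw [← lintegral_indicator measurableSet_Ioi, ← lintegral_indicator measurableSet_Ioo]
    apply lintegral_congr
    intro s
    by_cases h0 : 0 < s
    · rw [indicator_of_mem (show s ∈ Ioi (0 : ℝ) from h0)]
      by_cases h1 : s < 1
      · rw [indicator_of_mem (show s ∈ Ioo (0 : ℝ) 1 from ⟨h0, h1⟩), ENNReal.tsum_mul_left,
          tsum_wt h0 h1]
      · rw [indicator_of_notMem (fun hh => h1 hh.2), cnt_eq_zero h hD (not_lt.1 h1) hr.le]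
        simp
    · rw [indicator_of_notMem (show s ∉ Ioi (0 : ℝ) from h0), indicator_of_notMem (fun hh => h0 hh.1)]
  · intro m
    exact (mc.mul (measurable_id.pow_const _).ennreal_ofReal).aemeasurable

end Pool.Agent.RC.REP
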