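import Pool.Agent.Lib_helper11.GC45.R2

/-!
# The representation on `(4,5)`: the function `Hr` and its integral
-/

open scoped BigOperators ComplexOrder Kronecker MatrixOrder Topology ENNReal
open MeasureTheory Set Matrix Filter

namespace Pool.Agent.RC.REP

open S24 SER DEC INE LAY

variable {ι : Type} [Fintype ι] [DecidableEq ι]

/-- the second moment `∑ |D i j|² h_p(a i, a j)` -/
noncomputable def m1 (p : ℝ) (a : ι → ℝ) (D : Matrix ι ι ℂ) : ℝ :=
  ∑ i, ∑ j, ‖D i j‖ ^ 2 * hk p (a i) (a j)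

/-- integrand of `G - (p(p-1)/2) m1` -/
noncomputable def Hr (a : ι → ℝ) (D : Matrix ι ι ℂ) (r : ℝ) : ℝ :=
  (trF (fun x => L4 (x / r)) (dg a + D) + trF (fun x => L4 (x / r)) (dg a - D)) / 2
    - trF (fun x => L4 (x / r)) (dg a) - (∑ i, ∑ j, ‖D i j‖ ^ 2 * Kr (a i) (a j) r) / 2

theorem EB_dg {a : ι → ℝ} (ha : ∀ i, 0 < a i) {D : Matrix ι ι ℂ} (hD : D.IsHermitian) :
    EB (dg a) D 1 D a := by
  refine ⟨by simp, by simp, ?_, by simp, ha, hD⟩
  unfold dg
  simp

theorem sum4 {A D : Matrix ι ι ℂ} (hA : A.IsHermitian) (hp : (A + D).IsHermitian)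
    (hq : (A - D).IsHermitian) :
    ∑ i, hp.eigenvalues i ^ 4 + ∑ i, hq.eigenvalues i ^ 4 - 2 * ∑ i, hA.eigenvalues i ^ 4 =
      8 * ((A * A * D * D).trace).re + 4 * ((A * D * A * D).trace).re + 2 * ((D ^ 4).trace).re := by
  rw [sum_eig_pow hp, sum_eig_pow hq, sum_eig_pow hA]
  have e1 : (A + D) ^ 4 + (A - D) ^ 4 = (A ^ 4 + A ^ 4) + (D ^ 4 + D ^ 4) +
      ((A * A * D * D + A * A * D * D) + (A * D * D * A + A * D * D * A) +
       (D * A * A * D + D * A * A * D) + (D * D * A * A + D * D * A * A)) +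
      ((A * D * A * D + A * D * A * D) + (D * A * D * A + D * A * D * A)) := by noncomm_ring
  have t1 : (A * D * D * A).trace = (A * A * D * D).trace := by
    rw [Matrix.trace_mul_comm]
    congr 1
    noncomm_ring
  have t2 : (D * A * A * D).trace = (A * A * D * D).trace := by
    rw [show D * A * A * D = D * (A * A * D) by noncomm_ring, Matrix.trace_mul_comm]
  have t3 : (D * D * A * A).trace = (A * A * D * D).trace := by
    rw [show D * D * A * A = D * D * (A * A) by noncomm_ring, Matrix.trace_mul_comm]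
    congr 1
    noncomm_ring
  have t4 : (D * A * D * A).trace = (A * D * A * D).trace := by
    rw [Matrix.trace_mul_comm]
    congr 1
    noncomm_ring
  have e2 : ((A + D) ^ 4).trace + ((A - D) ^ 4).trace =
      ((A ^ 4).trace + (A ^ 4).trace) + ((D ^ 4).trace + (D ^ 4).trace) +
      8 * (A * A * D * D).trace + 4 * (A * D * A * D).trace := by
    rw [← Matrix.trace_add, e1]
    simp only [Matrix.trace_add]
    rw [t1, t2, t3, t4]
    ring
  have e3 := congrArg Complex.re e2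
  simp only [Complex.add_re] at e3
  have e4 : (8 * (A * A * D * D).trace).re = 8 * ((A * A * D * D).trace).re := by simp
  have e5 : (4 * (A * D * A * D).trace).re = 4 * ((A * D * A * D).trace).re := by simp
  rw [e4, e5] at e3
  linarith

theorem trAADD {a : ι → ℝ} {D : Matrix ι ι ℂ} (hD : D.IsHermitian) :
    ((dg a * dg a * D * D).trace).re = ∑ i, ∑ j, ‖D i j‖ ^ 2 * ((a i ^ 2 + a j ^ 2) / 2) := by
  have e : dg a * dg a * D * D = Matrix.diagonal (fun i => ((a i ^ 2 : ℝ) : ℂ)) * D *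
      Matrix.diagonal (fun i => (((fun _ => 1) i : ℝ) : ℂ)) * D := by
    have : (Matrix.diagonal (fun i : ι => (((fun _ => 1) i : ℝ) : ℂ))) = 1 := by
      simp
    rw [this, mul_one]
    unfold dg
    rw [Matrix.diagonal_mul_diagonal]
    congr 3
    funext i
    push_cast
    ring
  rw [e, trace_four _ _ hD]
  have hsym : ∑ i, ∑ j, Complex.normSq (D i j) * (a i ^ 2 * 1) =
      ∑ i, ∑ j, Complex.normSq (D i j) * (a j ^ 2 * 1) := by
    rw [Finset.sum_comm]
    apply Finset.sum_congr rfl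
    intro i _
    apply Finset.sum_congr rfl
    intro j _
    have hk : D j i = star (D i j) := (hD.apply i j).symm ▸ by simp
    rw [hk, Complex.star_def, Complex.normSq_conj]
  have e2 : ∑ i, ∑ j, ‖D i j‖ ^ 2 * ((a i ^ 2 + a j ^ 2) / 2) =
      (∑ i, ∑ j, Complex.normSq (D i j) * (a i ^ 2 * 1) +
        ∑ i, ∑ j, Complex.normSq (D i j) * (a j ^ 2 * 1)) / 2 := by
    rw [← Finset.sum_add_distrib, Finset.sum_div]
    apply Finset.sum_congr rfl
    intro i _
    rw [← Finset.sum_add_distrib, Finset.sum_div]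
    apply Finset.sum_congr rfl
    intro j _
    rw [Complex.normSq_eq_norm_sq]
    ring
  rw [e2, ← hsym]
  ring

theorem trADAD {a : ι → ℝ} {D : Matrix ι ι ℂ} (hD : D.IsHermitian) :
    ((dg a * D * dg a * D).trace).re = ∑ i, ∑ j, ‖D i j‖ ^ 2 * (a i * a j) := by
  unfold dg
  rw [trace_four _ _ hD]
  simp only [Complex.normSq_eq_norm_sq]

theorem isHermitian_of_pair {A D : Matrix ι ι ℂ} (h : IsPair A D) : D.IsHermitian := by
  have := h.add.isHermitian.sub h.pos.isHermitian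
  rwa [add_sub_cancel_left] at this

theorem Hr_eq {a : ι → ℝ} (ha : ∀ i, 0 < a i) {D : Matrix ι ι ℂ} (h : IsPair (dg a) D) {r : ℝ}
    (hr : 0 < r) : Hr a D r = -ps (dg a) D r + ((D ^ 4).trace).re / (4 * r ^ 4) := by
  have hD := isHermitian_of_pair h
  have hA := h.pos.isHermitian
  have hp := h.add.isHermitian
  have hq := h.sub.isHermitian
  have hEB := EB_dg ha hD
  have ha0 : ∀ i, 0 ≤ hA.eigenvalues i := fun i => (h.pos.eigenvalues_pos i).le
  have hp0 : ∀ i, 0 ≤ hp.eigenvalues i := fun i => h.add.eigenvalues_nonneg i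
  have hq0 : ∀ i, 0 ≤ hq.eigenvalues i := fun i => h.sub.eigenvalues_nonneg i
  have e2 : ∀ x : ℝ, 0 ≤ x → L4 (x / r) = Real.log (x + r) - Real.log r - x * (1 / r) +
      x ^ 2 * (1 / (2 * r ^ 2)) - x ^ 3 * (1 / (3 * r ^ 3)) + x ^ 4 * (1 / (4 * r ^ 4)) := by
    intro x hx
    unfold L4
    rw [show 1 + x / r = (x + r) / r by field_simp; ring,
      Real.log_div (by positivity) hr.ne']
    field_simp
  obtain ⟨s1, s2, s3⟩ := sums hA hp hq
  have s4 := sum4 hA hp hq
  rw [trAADD hD, trADAD hD] at s4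
  rw [hEB.trAD2] at s3
  rw [hEB.trD2] at s2
  have t2 := hEB.tn2 hr.le
  have eK : ∑ i, ∑ j, ‖D i j‖ ^ 2 * Kr (a i) (a j) r =
      -(∑ i, ∑ j, Complex.normSq (D i j) * (1 / (a i + r) * (1 / (a j + r)))) +
      (∑ i, ∑ j, Complex.normSq (D i j)) * (1 / r ^ 2) -
      (∑ i, ∑ j, Complex.normSq (D i j) * ((a i + a j) / 2)) * (2 / r ^ 3) +
      (2 * (∑ i, ∑ j, ‖D i j‖ ^ 2 * ((a i ^ 2 + a j ^ 2) / 2)) +
        ∑ i, ∑ j, ‖D i j‖ ^ 2 * (a i * a j)) * (1 / r ^ 4) := by
    rw [← Finset.sum_neg_distrib]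
    simp only [Finset.mul_sum, Finset.sum_mul, ← Finset.sum_add_distrib,
      ← Finset.sum_sub_distrib, ← Finset.sum_neg_distrib]
    apply Finset.sum_congr rfl
    intro i _
    apply Finset.sum_congr rfl
    intro j _
    rw [Complex.normSq_eq_norm_sq]
    have := ha i
    have := ha j
    unfold Kr
    field_simp
    ring
  unfold Hr ps
  rw [eK, t2]
  unfold trF
  rw [dif_pos hA, dif_pos hp, dif_pos hq, dif_pos hA, dif_pos hp, dif_pos hq]
  rw [Finset.sum_congr rfl fun i _ => e2 _ (ha0 i), Finset.sum_congr rfl fun i _ => e2 _ (hp0 i),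
    Finset.sum_congr rfl fun i _ => e2 _ (hq0 i)]
  simp only [Finset.sum_sub_distrib, Finset.sum_add_distrib, ← Finset.sum_mul]
  set S := ∑ i, ∑ j, ‖D i j‖ ^ 2 * ((a i ^ 2 + a j ^ 2) / 2)
  set S' := ∑ i, ∑ j, ‖D i j‖ ^ 2 * (a i * a j)
  linear_combination (-(1 / r) / 2) * s1 + (1 / (2 * r ^ 2)) / 2 * s2 - (1 / (3 * r ^ 3)) / 2 * s3 +
    (1 / (4 * r ^ 4)) / 2 * s4

end Pool.Agent.RC.REP
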