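import Pool.Agent.Lib_helper11.GC45.R3

/-!
# The representation on `(4,5)`: integrals and the diagonal pair `(|D|, D)`
-/

open scoped BigOperators ComplexOrder Kronecker MatrixOrder Topology ENNReal
open MeasureTheory Set Matrix Filter

namespace Pool.Agent.RC.REP

open S24 SER DEC INE LAY

variable {ι : Type} [Fintype ι] [DecidableEq ι]

theorem int_trF_L4 {p : ℝ} (h4 : 4 < p) (h5 : p < 5) {M : Matrix ι ι ℂ} (hM : M.PosSemidef) :
    IntegrableOn (fun r : ℝ => r ^ (p - 1) * trF (fun x => L4 (x / r)) M) (Ioi 0) ∧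
      ∫ r in Ioi (0 : ℝ), r ^ (p - 1) * trF (fun x => L4 (x / r)) M =
        Bc p / p * trF (fun x => x ^ p) M := by
  have hMh := hM.isHermitian
  have sc := fun i => int_L4 h4 h5 (hM.eigenvalues_nonneg i)
  have e : (fun r : ℝ => r ^ (p - 1) * trF (fun x => L4 (x / r)) M) = fun r : ℝ =>
      ∑ i, r ^ (p - 1) * L4 (hMh.eigenvalues i / r) := by
    funext r
    unfold trF
    rw [dif_pos hMh, Finset.mul_sum]
  rw [e]
  refine ⟨integrable_finsetSum _ fun i _ => (sc i).1, ?_⟩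
  rw [integral_finsetSum _ fun i _ => (sc i).1, Finset.sum_congr rfl fun i _ => (sc i).2,
    ← Finset.mul_sum]
  unfold trF
  rw [dif_pos hMh]

theorem int_Hr {p : ℝ} (h4 : 4 < p) (h5 : p < 5) {a : ι → ℝ} (ha : ∀ i, 0 < a i)
    {D : Matrix ι ι ℂ} (h : IsPair (dg a) D) :
    IntegrableOn (fun r : ℝ => r ^ (p - 1) * Hr a D r) (Ioi 0) ∧
      ∫ r in Ioi (0 : ℝ), r ^ (p - 1) * Hr a D r =
        Bc p / p * (G p (dg a) D - p * (p - 1) / 2 * m1 p a D) := by
  obtain ⟨iP, vP⟩ := int_trF_L4 h4 h5 h.add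
  obtain ⟨iQ, vQ⟩ := int_trF_L4 h4 h5 h.sub
  obtain ⟨iA, vA⟩ := int_trF_L4 h4 h5 h.pos.posSemidef
  have sK := fun i j => int_Kr h4 h5 (ha i) (ha j)
  have iK : IntegrableOn (fun r : ℝ => ∑ i, ∑ j, ‖D i j‖ ^ 2 * (r ^ (p - 1) * Kr (a i) (a j) r))
      (Ioi 0) := integrable_finsetSum _ fun i _ => integrable_finsetSum _ fun j _ =>
        (sK i j).1.const_mul _
  have vK : ∫ r in Ioi (0 : ℝ), ∑ i, ∑ j, ‖D i j‖ ^ 2 * (r ^ (p - 1) * Kr (a i) (a j) r) =
      (p - 1) * Bc p * m1 p a D := by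
    rw [integral_finsetSum _ fun i _ => integrable_finsetSum _ fun j _ => (sK i j).1.const_mul _]
    unfold m1
    rw [Finset.mul_sum]
    apply Finset.sum_congr rfl
    intro i _
    rw [integral_finsetSum _ fun j _ => (sK i j).1.const_mul _, Finset.mul_sum]
    apply Finset.sum_congr rfl
    intro j _
    rw [integral_const_mul, (sK i j).2]
    ring
  have e : (fun r : ℝ => r ^ (p - 1) * Hr a D r) = fun r : ℝ =>
      (1 / 2 * (r ^ (p - 1) * trF (fun x => L4 (x / r)) (dg a + D)) +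
        1 / 2 * (r ^ (p - 1) * trF (fun x => L4 (x / r)) (dg a - D)) -
        r ^ (p - 1) * trF (fun x => L4 (x / r)) (dg a)) -
        1 / 2 * ∑ i, ∑ j, ‖D i j‖ ^ 2 * (r ^ (p - 1) * Kr (a i) (a j) r) := by
    funext r
    have : ∑ i, ∑ j, ‖D i j‖ ^ 2 * (r ^ (p - 1) * Kr (a i) (a j) r) =
        r ^ (p - 1) * ∑ i, ∑ j, ‖D i j‖ ^ 2 * Kr (a i) (a j) r := by
      rw [Finset.mul_sum]
      apply Finset.sum_congr rfl
      intro i _
      rw [Finset.mul_sum]
      apply Finset.sum_congr rfl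
      intro j _
      ring
    rw [this]
    unfold Hr
    ring
  have j1 := (iP.const_mul (1 / 2)).add (iQ.const_mul (1 / 2))
  have j2 := j1.sub iA
  have j3 := j2.sub (iK.const_mul (1 / 2))
  rw [e]
  refine ⟨j3, ?_⟩
  have v1 : ∫ r in Ioi (0 : ℝ), ((1 / 2 * (r ^ (p - 1) * trF (fun x => L4 (x / r)) (dg a + D)) +
        1 / 2 * (r ^ (p - 1) * trF (fun x => L4 (x / r)) (dg a - D)) -
        r ^ (p - 1) * trF (fun x => L4 (x / r)) (dg a)) -
        1 / 2 * ∑ i, ∑ j, ‖D i j‖ ^ 2 * (r ^ (p - 1) * Kr (a i) (a j) r)) =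
      (∫ r in Ioi (0 : ℝ), (1 / 2 * (r ^ (p - 1) * trF (fun x => L4 (x / r)) (dg a + D)) +
        1 / 2 * (r ^ (p - 1) * trF (fun x => L4 (x / r)) (dg a - D)) -
        r ^ (p - 1) * trF (fun x => L4 (x / r)) (dg a))) -
      ∫ r in Ioi (0 : ℝ), 1 / 2 * ∑ i, ∑ j, ‖D i j‖ ^ 2 * (r ^ (p - 1) * Kr (a i) (a j) r) :=
    integral_sub j2 (iK.const_mul (1 / 2))
  have v2 : ∫ r in Ioi (0 : ℝ), (1 / 2 * (r ^ (p - 1) * trF (fun x => L4 (x / r)) (dg a + D)) +
        1 / 2 * (r ^ (p - 1) * trF (fun x => L4 (x / r)) (dg a - D)) -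
        r ^ (p - 1) * trF (fun x => L4 (x / r)) (dg a)) =
      (∫ r in Ioi (0 : ℝ), (1 / 2 * (r ^ (p - 1) * trF (fun x => L4 (x / r)) (dg a + D)) +
        1 / 2 * (r ^ (p - 1) * trF (fun x => L4 (x / r)) (dg a - D)))) -
      ∫ r in Ioi (0 : ℝ), r ^ (p - 1) * trF (fun x => L4 (x / r)) (dg a) := integral_sub j1 iA
  have v3 : ∫ r in Ioi (0 : ℝ), (1 / 2 * (r ^ (p - 1) * trF (fun x => L4 (x / r)) (dg a + D)) +
        1 / 2 * (r ^ (p - 1) * trF (fun x => L4 (x / r)) (dg a - D))) =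
      (∫ r in Ioi (0 : ℝ), 1 / 2 * (r ^ (p - 1) * trF (fun x => L4 (x / r)) (dg a + D))) +
      ∫ r in Ioi (0 : ℝ), 1 / 2 * (r ^ (p - 1) * trF (fun x => L4 (x / r)) (dg a - D)) :=
    integral_add (iP.const_mul (1 / 2)) (iQ.const_mul (1 / 2))
  rw [v1, v2, v3, integral_const_mul, integral_const_mul, integral_const_mul, vP, vQ, vA, vK]
  have hp0 : p ≠ 0 := by linarith
  unfold G
  field_simp

/-! ## The diagonal pair -/

theorem trF_dg (f : ℝ → ℝ) (c : ι → ℝ) : trF f (dg c) = ∑ i, f (c i) := by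
  have h := TRF.trF_conj f (U := (1 : Matrix ι ι ℂ)) (by simp) c
  unfold dg
  rw [← h]
  congr 1
  simp

theorem dg_add (c d : ι → ℝ) : dg c + dg d = dg (fun i => c i + d i) := by
  unfold dg
  rw [Matrix.diagonal_add]
  congr 1
  funext i
  push_cast
  rfl

theorem dg_sub (c d : ι → ℝ) : dg c - dg d = dg (fun i => c i - d i) := by
  unfold dg
  rw [Matrix.diagonal_sub]
  congr 1
  funext i
  push_cast
  rfl

theorem dg_neg (c : ι → ℝ) : -dg c = dg (fun i => -c i) := by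
  unfold dg
  ext i j
  by_cases h : i = j
  · subst h; simp
  · simp [h]

theorem dg_smul (s : ℝ) (c : ι → ℝ) : (s : ℂ) • dg c = dg (fun i => s * c i) := by
  unfold dg
  rw [← Matrix.diagonal_smul]
  congr 1
  funext i
  simp

theorem one_dg : (1 : Matrix ι ι ℂ) = dg (fun _ => 1) := by
  unfold dg
  simp

theorem psd_dg {c : ι → ℝ} (hc : ∀ i, 0 ≤ c i) : (dg c).PosSemidef := by
  apply Matrix.PosSemidef.diagonal
  intro i
  exact Complex.zero_le_real.mpr (hc i)

theorem pd_dg {c : ι → ℝ} (hc : ∀ i, 0 < c i) : (dg c).PosDef := by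
  apply Matrix.PosDef.diagonal
  intro i
  exact Complex.zero_lt_real.mpr (hc i)

/-- for `d i ≠ 0`, `(|d|, d)` is a pair -/
theorem pair_abs {d : ι → ℝ} (hd : ∀ i, d i ≠ 0) : IsPair (dg fun i => |d i|) (dg d) := by
  refine ⟨pd_dg fun i => abs_pos.2 (hd i), ?_, ?_⟩
  · rw [dg_sub]; exact psd_dg fun i => sub_nonneg.2 (le_abs_self _)
  · rw [dg_add]; exact psd_dg fun i => by linarith [neg_abs_le (d i)]

theorem m1_abs {p : ℝ} (d : ι → ℝ) (hd : ∀ i, d i ≠ 0) :
    m1 p (fun i => |d i|) (dg d) = ∑ i, |d i| ^ p := by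
  unfold m1
  apply Finset.sum_congr rfl
  intro i _
  rw [Finset.sum_eq_single i]
  · rw [B1.hk_self]
    unfold dg
    rw [Matrix.diagonal_apply_eq, Complex.norm_real, Real.norm_eq_abs]
    have h0 : 0 < |d i| := abs_pos.2 (hd i)
    rw [← Real.rpow_natCast (|d i|) 2, ← Real.rpow_add h0]
    congr 1
    push_cast
    ring
  · intro j _ hj
    unfold dg
    rw [Matrix.diagonal_apply_ne _ (Ne.symm hj)]
    simp
  · intro hi; exact absurd (Finset.mem_univ i) hi

theorem G_abs {p : ℝ} (hp : 0 < p) (d : ι → ℝ) :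
    G p (dg fun i => |d i|) (dg d) = (2 ^ (p - 1) - 1) * ∑ i, |d i| ^ p := by
  unfold G
  rw [dg_add, dg_sub, trF_dg, trF_dg, trF_dg, ← Finset.sum_add_distrib, Finset.sum_div,
    ← Finset.sum_sub_distrib, Finset.mul_sum]
  apply Finset.sum_congr rfl
  intro i _
  have h2 : (2 : ℝ) ^ (p - 1) = 2 ^ p / 2 := by
    rw [Real.rpow_sub_one (by norm_num)]
  rcases le_total 0 (d i) with h | h
  · rw [abs_of_nonneg h, sub_self, Real.zero_rpow hp.ne', ← two_mul, Real.mul_rpow (by norm_num) h,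
      h2]
    ring
  · rw [abs_of_nonpos h, neg_add_cancel, Real.zero_rpow hp.ne',
      show -d i - d i = 2 * (-d i) by ring, Real.mul_rpow (by norm_num) (by linarith), h2]
    ring

theorem fx_abs {p : ℝ} (hp : 0 < p) (d : ι → ℝ) {s : ℝ} (h0 : 0 ≤ s) (h1 : s ≤ 1) :
    fx p (dg fun i => |d i|) (dg d) s = (1 - s) ^ p * ∑ i, |d i| ^ p := by
  unfold fx
  rw [dg_smul, dg_neg, dg_sub, dg_sub, trF_dg, trF_dg, ← Finset.sum_add_distrib, Finset.mul_sum]
  apply Finset.sum_congr rfl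
  intro i _
  unfold pp
  have ha := abs_nonneg (d i)
  rcases le_total 0 (d i) with h | h
  · rw [abs_of_nonneg h, max_eq_left (by nlinarith), max_eq_right (by nlinarith),
      Real.zero_rpow hp.ne', add_zero, show d i - s * d i = (1 - s) * d i by ring,
      Real.mul_rpow (by linarith) h]
  · rw [abs_of_nonpos h, max_eq_right (by nlinarith), max_eq_left (by nlinarith),
      Real.zero_rpow hp.ne', zero_add, show -d i - s * -d i = (1 - s) * -d i by ring,
      Real.mul_rpow (by linarith) (by linarith)]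

theorem tau_zero_eq {p : ℝ} (hp : 0 < p) {A D : Matrix ι ι ℂ} (hD : D.IsHermitian) :
    tau p A D 0 = ∑ i, |hD.eigenvalues i| ^ p := by
  unfold tau
  have e1 : D - (((0 : ℝ)) : ℂ) • (A - D) = D := by simp
  have e2 : -D - (((0 : ℝ)) : ℂ) • (A + D) = -D := by simp
  rw [e1, e2, trF_neg _ hD]
  unfold trF
  rw [dif_pos hD, dif_pos hD, ← Finset.sum_add_distrib]
  apply Finset.sum_congr rfl
  intro i _
  show (max (hD.eigenvalues i) 0) ^ p + (max (-hD.eigenvalues i) 0) ^ p = _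
  rcases le_total 0 (hD.eigenvalues i) with h | h
  · rw [abs_of_nonneg h, max_eq_left h, max_eq_right (by linarith), Real.zero_rpow hp.ne', add_zero]
  · rw [abs_of_nonpos h, max_eq_right h, max_eq_left (by linarith), Real.zero_rpow hp.ne', zero_add]

theorem sum_ne (d : ι → ℝ) (g : ℝ → ℝ) (hg : g 0 = 0) :
    ∑ i : {i // d i ≠ 0}, g (d i.1) = ∑ i, g (d i) := by
  rw [← Finset.sum_subtype (Finset.univ.filter fun i => d i ≠ 0) (by simp) (fun i => g (d i)),
    Finset.sum_filter_of_ne]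
  intro i _ h hd
  exact h (by rw [hd, hg])

theorem cnt_abs_le {A D : Matrix ι ι ℂ} (h : IsPair A D) (hD : D.IsHermitian) {s r : ℝ}
    (h0 : 0 < s) (h1 : s < 1) (hr : 0 < r) :
    cnt A D s r ≤ cnt (dg fun i : {i // hD.eigenvalues i ≠ 0} => |hD.eigenvalues i.1|)
      (dg fun i : {i // hD.eigenvalues i ≠ 0} => hD.eigenvalues i.1) s r := by
  have hA := h.pos.isHermitian
  set d := hD.eigenvalues with hd
  have hAr : (A + (r : ℂ) • (1 : Matrix ι ι ℂ)).IsHermitian :=
    hA.add (isHermitian_real_smul r Matrix.isHermitian_one)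
  have k1 : trF i0 (D - (s : ℂ) • (A + (r : ℂ) • (1 : Matrix ι ι ℂ))) ≤
      ∑ i, i0 ((1 - s) * d i + -(s * r)) := by
    rw [← TZ.trF_affine i0 hD (1 - s) (-(s * r))]
    apply TZ.trF_i0_mono
    · exact hD.sub (isHermitian_real_smul s hAr)
    · exact (isHermitian_real_smul _ hD).add (isHermitian_real_smul _ Matrix.isHermitian_one)
    · have e : (((1 - s : ℝ)) : ℂ) • D + (((-(s * r) : ℝ)) : ℂ) • (1 : Matrix ι ι ℂ) -
          (D - (s : ℂ) • (A + (r : ℂ) • (1 : Matrix ι ι ℂ))) = (s : ℂ) • (A - D) := by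
        push_cast
        rw [sub_smul, one_smul, smul_add, smul_smul, neg_smul, smul_sub]
        abel
      rw [e]
      exact TZ.psd_smul h.sub h0.le
  have k2 : trF i0 (-D - (s : ℂ) • (A + (r : ℂ) • (1 : Matrix ι ι ℂ))) ≤
      ∑ i, i0 (-(1 - s) * d i + -(s * r)) := by
    rw [← TZ.trF_affine i0 hD (-(1 - s)) (-(s * r))]
    apply TZ.trF_i0_mono
    · exact hD.neg.sub (isHermitian_real_smul s hAr)
    · exact (isHermitian_real_smul _ hD).add (isHermitian_real_smul _ Matrix.isHermitian_one)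
    · have e : (((-(1 - s) : ℝ)) : ℂ) • D + (((-(s * r) : ℝ)) : ℂ) • (1 : Matrix ι ι ℂ) -
          (-D - (s : ℂ) • (A + (r : ℂ) • (1 : Matrix ι ι ℂ))) = (s : ℂ) • (A + D) := by
        push_cast
        rw [neg_smul, sub_smul, one_smul, smul_add, smul_smul, neg_smul, smul_add]
        abel
      rw [e]
      exact TZ.psd_smul h.add h0.le
  have e3 : cnt (dg fun i : {i // d i ≠ 0} => |d i.1|) (dg fun i : {i // d i ≠ 0} => d i.1) s r =
      ∑ i, (i0 ((1 - s) * d i + -(s * r)) + i0 (-(1 - s) * d i + -(s * r))) := by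
    have hg := sum_ne d (fun x => i0 ((1 - s) * x + -(s * r)) + i0 (-(1 - s) * x + -(s * r))) (by
      have : ¬ (0 : ℝ) < -(s * r) := by
        have := mul_pos h0 hr
        linarith
      simp only [mul_zero, zero_add]
      unfold i0
      rw [if_neg this, add_zero])
    rw [← hg]
    unfold cnt
    rw [one_dg, dg_smul, dg_add, dg_smul, dg_neg, dg_sub, dg_sub, trF_dg, trF_dg,
      ← Finset.sum_add_distrib]
    apply Finset.sum_congr rfl
    intro i _
    have hsr := mul_pos h0 hr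
    rcases le_total 0 (d i.1) with hh | hh
    · rw [abs_of_nonneg hh]
      congr 1
      · congr 1; ring
      · unfold i0
        rw [if_neg (by nlinarith), if_neg (by nlinarith)]
    · rw [abs_of_nonpos hh]
      congr 1
      · unfold i0
        rw [if_neg (by nlinarith), if_neg (by nlinarith)]
      · congr 1; ring
  rw [e3, Finset.sum_add_distrib]
  exact add_le_add k1 k2

end Pool.Agent.RC.REP
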