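import Pool.Agent.Lib_helper11.GC45.R4

/-!
# The representation of `G` on `(4,5)`
-/

open scoped BigOperators ComplexOrder Kronecker MatrixOrder Topology ENNReal
open MeasureTheory Set Matrix Filter

namespace Pool.Agent.RC.REP

open S24 SER DEC INE LAY

variable {ι : Type} [Fintype ι] [DecidableEq ι]

section

variable {κ : Type} [Fintype κ] [DecidableEq κ] {A D : Matrix ι ι ℂ} {A' D' : Matrix κ κ ℂ}

theorem ps_nonneg (h : IsPair A D) {r : ℝ} (hr : 0 < r) : 0 ≤ ps A D r :=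
  (hasSum_ps h hr).nonneg fun m =>
    div_nonneg (tn_nonneg' h hr.le (even_two_mul _)) (Nat.cast_nonneg _)

theorem ps_diff (h : IsPair A D) (h' : IsPair A' D')
    (hle : ∀ s r : ℝ, 0 < s → s < 1 → 0 < r → cnt A D s r ≤ cnt A' D' s r) {r : ℝ} (hr : 0 < r) :
    ps A D r ≤ ps A' D' r ∧ ENNReal.ofReal (ps A' D' r - ps A D r) =
      ∫⁻ s in Ioo (0 : ℝ) 1, ENNReal.ofReal (cnt A' D' s r - cnt A D s r) *
        ENNReal.ofReal (wt s) := by
  have hD := isHermitian_of_pair h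
  have hD' := isHermitian_of_pair h'
  have e : ENNReal.ofReal (ps A' D' r) = ENNReal.ofReal (ps A D r) +
      ∫⁻ s in Ioo (0 : ℝ) 1, ENNReal.ofReal (cnt A' D' s r - cnt A D s r) *
        ENNReal.ofReal (wt s) := by
    have mc : Measurable fun s : ℝ => ENNReal.ofReal (cnt A D s r) := by
      have := (measurable_cnt h.pos.isHermitian hD).comp
        (measurable_id.prodMk (measurable_const (a := r)))
      exact Measurable.ennreal_ofReal this
    rw [ofReal_ps h hD hr, ofReal_ps h' hD' hr, ← lintegral_add_left]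
    · apply setLIntegral_congr_fun measurableSet_Ioo
      intro s hs
      dsimp only
      rw [← add_mul, ← ENNReal.ofReal_add (cnt_nonneg _ _ _ _)
        (sub_nonneg.2 (hle s r hs.1 hs.2 hr)), add_sub_cancel]
    · exact mc.mul measurable_wt.ennreal_ofReal
  refine ⟨?_, ?_⟩
  · have h3 : ENNReal.ofReal (ps A D r) ≤ ENNReal.ofReal (ps A' D' r) := by
      rw [e]; exact le_self_add
    exact (ENNReal.ofReal_le_ofReal_iff (ps_nonneg h' hr)).1 h3
  · rw [ENNReal.ofReal_sub _ (ps_nonneg h hr), e, ENNReal.add_sub_cancel_left ENNReal.ofReal_ne_top]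

theorem fx_diff (h : IsPair A D) (h' : IsPair A' D')
    (hle : ∀ s r : ℝ, 0 < s → s < 1 → 0 < r → cnt A D s r ≤ cnt A' D' s r) {p : ℝ} (hp : 0 < p)
    {s : ℝ} (h0 : 0 < s) (h1 : s < 1) :
    fx p A D s ≤ fx p A' D' s ∧ ∫⁻ x in Ioi (0 : ℝ), ENNReal.ofReal (x ^ (p - 1)) *
        ENNReal.ofReal (cnt A' D' s x - cnt A D s x) =
      ENNReal.ofReal ((fx p A' D' s - fx p A D s) / (p * s ^ p)) := by
  have hD := isHermitian_of_pair h
  have hD' := isHermitian_of_pair h'
  have hps : 0 < p * s ^ p := mul_pos hp (Real.rpow_pos_of_pos h0 _)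
  have e : ENNReal.ofReal (fx p A' D' s) = ENNReal.ofReal (fx p A D s) +
      ENNReal.ofReal (p * s ^ p) * ∫⁻ x in Ioi (0 : ℝ), ENNReal.ofReal (x ^ (p - 1)) *
        ENNReal.ofReal (cnt A' D' s x - cnt A D s x) := by
    have mc : Measurable fun x : ℝ => ENNReal.ofReal (cnt A D s x) := by
      have := (measurable_cnt h.pos.isHermitian hD).comp
        ((measurable_const (a := s)).prodMk measurable_id)
      exact Measurable.ennreal_ofReal this
    have mp : Measurable fun x : ℝ => ENNReal.ofReal (x ^ (p - 1)) :=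
      (measurable_id.pow_const _).ennreal_ofReal
    rw [fx_layer h.pos.isHermitian hD hp h0, fx_layer h'.pos.isHermitian hD' hp h0,
      ← lintegral_const_mul' _ _ ENNReal.ofReal_ne_top, ← lintegral_add_left]
    · apply setLIntegral_congr_fun measurableSet_Ioi
      intro x hx
      dsimp only
      have e1 : ENNReal.ofReal (cnt A' D' s x) = ENNReal.ofReal (cnt A D s x) +
          ENNReal.ofReal (cnt A' D' s x - cnt A D s x) := by
        rw [← ENNReal.ofReal_add (cnt_nonneg _ _ _ _)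
          (sub_nonneg.2 (hle s x h0 h1 hx)), add_sub_cancel]
      rw [e1, ENNReal.ofReal_mul hp.le]
      ring
    · exact (mp.mul (mc.mul_const _)).const_mul _
  refine ⟨?_, ?_⟩
  · have h3 : ENNReal.ofReal (fx p A D s) ≤ ENNReal.ofReal (fx p A' D' s) := by
      rw [e]; exact le_self_add
    exact (ENNReal.ofReal_le_ofReal_iff (fx_nonneg _ _ _ _)).1 h3
  · rw [ENNReal.ofReal_div_of_pos hps, ENNReal.ofReal_sub _ (fx_nonneg _ _ _ _), e,
      ENNReal.add_sub_cancel_left ENNReal.ofReal_ne_top, mul_comm, mul_div_assoc,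
      ENNReal.div_self (by simpa using hps) ENNReal.ofReal_ne_top, mul_one]

theorem meas_aux (h : IsPair A D) (h' : IsPair A' D') (p : ℝ) :
    Measurable (Function.uncurry fun r s : ℝ => ENNReal.ofReal (r ^ (p - 1)) *
        (ENNReal.ofReal (cnt A' D' s r - cnt A D s r) * ENNReal.ofReal (wt s))) := by
  have hD := isHermitian_of_pair h
  have hD' := isHermitian_of_pair h'
  have m1 : Measurable fun z : ℝ × ℝ => ENNReal.ofReal (z.1 ^ (p - 1)) :=
    (measurable_fst.pow_const _).ennreal_ofReal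
  have m2 : Measurable fun z : ℝ × ℝ => Function.uncurry (cnt A D) (z.2, z.1) :=
    (measurable_cnt h.pos.isHermitian hD).comp (measurable_snd.prodMk measurable_fst)
  have m3 : Measurable fun z : ℝ × ℝ => Function.uncurry (cnt A' D') (z.2, z.1) :=
    (measurable_cnt h'.pos.isHermitian hD').comp (measurable_snd.prodMk measurable_fst)
  have m4 : Measurable fun z : ℝ × ℝ => ENNReal.ofReal (wt z.2) :=
    (measurable_wt.comp measurable_snd).ennreal_ofReal
  have m5 := m1.mul ((m3.sub m2).ennreal_ofReal.mul m4)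
  exact m5

theorem ton (h : IsPair A D) (h' : IsPair A' D')
    (hle : ∀ s r : ℝ, 0 < s → s < 1 → 0 < r → cnt A D s r ≤ cnt A' D' s r) {p : ℝ} (hp : 0 < p) :
    ∫⁻ r in Ioi (0 : ℝ), ENNReal.ofReal (r ^ (p - 1) * (ps A' D' r - ps A D r)) =
      ∫⁻ s in Ioo (0 : ℝ) 1,
        ENNReal.ofReal (wt s * ((fx p A' D' s - fx p A D s) / (p * s ^ p))) := by
  have L : ∀ r ∈ Ioi (0 : ℝ), ENNReal.ofReal (r ^ (p - 1) * (ps A' D' r - ps A D r)) =
      ∫⁻ s in Ioo (0 : ℝ) 1, ENNReal.ofReal (r ^ (p - 1)) *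
        (ENNReal.ofReal (cnt A' D' s r - cnt A D s r) * ENNReal.ofReal (wt s)) := by
    intro r hr
    have hr0 : (0 : ℝ) < r := hr
    rw [ENNReal.ofReal_mul (Real.rpow_nonneg hr0.le _), (ps_diff h h' hle hr0).2,
      ← lintegral_const_mul' _ _ ENNReal.ofReal_ne_top]
  have R : ∀ s ∈ Ioo (0 : ℝ) 1,
      ENNReal.ofReal (wt s * ((fx p A' D' s - fx p A D s) / (p * s ^ p))) =
      ∫⁻ r in Ioi (0 : ℝ), ENNReal.ofReal (r ^ (p - 1)) *
        (ENNReal.ofReal (cnt A' D' s r - cnt A D s r) * ENNReal.ofReal (wt s)) := by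
    intro s hs
    rw [ENNReal.ofReal_mul (wt_nonneg hs.1 hs.2), ← (fx_diff h h' hle hp hs.1 hs.2).2,
      ← lintegral_const_mul' _ _ ENNReal.ofReal_ne_top]
    apply lintegral_congr
    intro x
    ring
  have T := lintegral_lintegral_swap (μ := volume.restrict (Ioi (0 : ℝ)))
    (ν := volume.restrict (Ioo (0 : ℝ) 1)) (meas_aux h h' p).aemeasurable
  calc _ = _ := setLIntegral_congr_fun measurableSet_Ioi L
    _ = _ := T
    _ = _ := (setLIntegral_congr_fun measurableSet_Ioo R).symm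


/-- the integrand in the variable `s` -/
noncomputable def gs (p : ℝ) (A D : Matrix ι ι ℂ) (A' D' : Matrix κ κ ℂ) (s : ℝ) : ℝ :=
  wt s * ((fx p A' D' s - fx p A D s) / (p * s ^ p))

theorem real_ton (h : IsPair A D) (h' : IsPair A' D')
    (hle : ∀ s r : ℝ, 0 < s → s < 1 → 0 < r → cnt A D s r ≤ cnt A' D' s r) {p : ℝ} (hp : 0 < p)
    (hi : IntegrableOn (fun r : ℝ => r ^ (p - 1) * (ps A' D' r - ps A D r)) (Ioi 0)) :
    IntegrableOn (gs p A D A' D') (Ioo 0 1) ∧
      ∫ r in Ioi (0 : ℝ), r ^ (p - 1) * (ps A' D' r - ps A D r) =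
        ∫ s in Ioo (0 : ℝ) 1, gs p A D A' D' s := by
  have hD := isHermitian_of_pair h
  have hD' := isHermitian_of_pair h'
  have hmeas : Measurable (gs p A D A' D') := by
    unfold gs
    have c1 := (continuous_fx hp.le h.pos.isHermitian hD).measurable
    have c2 := (continuous_fx hp.le h'.pos.isHermitian hD').measurable
    exact measurable_wt.mul ((c2.sub c1).div (measurable_const.mul (measurable_id.pow_const _)))
  have hnn : 0 ≤ᵐ[volume.restrict (Ioo (0 : ℝ) 1)] gs p A D A' D' := by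
    filter_upwards [ae_restrict_mem measurableSet_Ioo] with s hs
    exact mul_nonneg (wt_nonneg hs.1 hs.2) (div_nonneg
      (sub_nonneg.2 (fx_diff h h' hle hp hs.1 hs.2).1)
      (mul_nonneg hp.le (Real.rpow_nonneg hs.1.le _)))
  have hnn1 : 0 ≤ᵐ[volume.restrict (Ioi (0 : ℝ))]
      fun r : ℝ => r ^ (p - 1) * (ps A' D' r - ps A D r) := by
    filter_upwards [ae_restrict_mem measurableSet_Ioi] with r hr
    exact mul_nonneg (Real.rpow_nonneg (le_of_lt hr) _)
      (sub_nonneg.2 (ps_diff h h' hle hr).1)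
  have T := ton h h' hle hp
  have hfin : ∫⁻ s in Ioo (0 : ℝ) 1, ENNReal.ofReal (gs p A D A' D' s) < ⊤ := by
    have : ∫⁻ s in Ioo (0 : ℝ) 1, ENNReal.ofReal (gs p A D A' D' s) =
        ∫⁻ r in Ioi (0 : ℝ), ENNReal.ofReal (r ^ (p - 1) * (ps A' D' r - ps A D r)) := T.symm
    rw [this]
    exact (hasFiniteIntegral_iff_ofReal hnn1).1 hi.2
  refine ⟨⟨hmeas.aestronglyMeasurable, (hasFiniteIntegral_iff_ofReal hnn).2 hfin⟩, ?_⟩
  rw [integral_eq_lintegral_of_nonneg_ae hnn1 hi.1,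
    integral_eq_lintegral_of_nonneg_ae hnn hmeas.aestronglyMeasurable, T]
  rfl

end

/-- **the representation of `G` for `4 < p < 5`** -/
theorem rep {p : ℝ} (h4 : 4 < p) (h5 : p < 5) {a : ι → ℝ} (ha : ∀ i, 0 < a i)
    {D : Matrix ι ι ℂ} (h : IsPair (dg a) D) :
    IntegrableOn (fun v : ℝ => v ^ (3 - p) * (((1 + v) ^ 3)⁻¹ * (1 + 2 * v)⁻¹) *
      (tau p (dg a) D 0 - tau p (dg a) D v)) (Ioi 0) ∧
    G p (dg a) D = p * (p - 1) / 2 * m1 p a D +
      (2 ^ (p - 1) - 1 - p * (p - 1) / 2) * tau p (dg a) D 0 +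
      (Bc p)⁻¹ * ∫ v in Ioi (0 : ℝ), v ^ (3 - p) * (((1 + v) ^ 3)⁻¹ * (1 + 2 * v)⁻¹) *
        (tau p (dg a) D 0 - tau p (dg a) D v) := by
  have hp : 0 < p := by linarith
  have hD := isHermitian_of_pair h
  set d : {i // hD.eigenvalues i ≠ 0} → ℝ := fun i => hD.eigenvalues i.1 with hd
  have hdne : ∀ i, d i ≠ 0 := fun i => i.2
  have h' : IsPair (dg fun i => |d i|) (dg d) := pair_abs hdne
  have hle : ∀ s r : ℝ, 0 < s → s < 1 → 0 < r → cnt (dg a) D s r ≤
      cnt (dg fun i => |d i|) (dg d) s r := fun s r h0 h1 hr => cnt_abs_le h hD h0 h1 hr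
  have hsum : ∑ i, |d i| ^ p = tau p (dg a) D 0 := by
    rw [tau_zero_eq hp hD]
    exact sum_ne hD.eigenvalues (fun x => |x| ^ p) (by simp [Real.zero_rpow hp.ne'])
  obtain ⟨i1, v1⟩ := int_Hr h4 h5 ha h
  obtain ⟨i2, v2⟩ := int_Hr h4 h5 (fun i => abs_pos.2 (hdne i)) h'
  rw [m1_abs d hdne, G_abs hp d, hsum] at v2
  have h44 : ((dg d ^ 4).trace).re = ((D ^ 4).trace).re := by
    rw [← sum_eig_pow hD 4]
    have e1 : (dg d ^ 4).trace = ((∑ i, d i ^ 4 : ℝ) : ℂ) := by
      unfold dg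
      rw [Matrix.diagonal_pow, Matrix.trace_diagonal]
      push_cast
      rfl
    rw [e1, Complex.ofReal_re]
    exact sum_ne hD.eigenvalues (fun x => x ^ 4) (by simp)
  have eT : ∀ r ∈ Ioi (0 : ℝ), r ^ (p - 1) * Hr a D r - r ^ (p - 1) * Hr (fun i => |d i|) (dg d) r =
      r ^ (p - 1) * (ps (dg fun i => |d i|) (dg d) r - ps (dg a) D r) := by
    intro r hr
    rw [Hr_eq ha h hr, Hr_eq (fun i => abs_pos.2 (hdne i)) h' hr, h44]
    ring
  have iT := icongr (i1.sub i2) eT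
  have vT := setIntegral_congr_fun (μ := volume) measurableSet_Ioi eT
  rw [integral_sub i1 i2, v1, v2] at vT
  obtain ⟨i3, v3⟩ := real_ton h h' hle hp iT
  rw [v3] at vT
  have hderiv : ∀ z ∈ Ioi (0 : ℝ), HasDerivWithinAt (fun z : ℝ => z / (1 + z))
      (((1 + z) ^ 2)⁻¹) (Ioi 0) z := fun z hz => (deriv_zeta hz).hasDerivWithinAt
  set g := gs p (dg a) D (dg fun i => |d i|) (dg d) with hg
  have hcongr : ∀ z ∈ Ioi (0 : ℝ), |((1 + z) ^ 2)⁻¹| • g (z / (1 + z)) =
      1 / p * (z ^ (3 - p) * (((1 + z) ^ 3)⁻¹ * (1 + 2 * z)⁻¹) *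
        (tau p (dg a) D 0 - tau p (dg a) D z)) := by
    intro z hz
    have hz0 : 0 < z := hz
    have h1 : (0 : ℝ) < 1 + z := by linarith
    have h2 : (0 : ℝ) < 1 + 2 * z := by linarith
    have hs1 : 1 - z / (1 + z) = (1 + z)⁻¹ := by field_simp; ring
    have hs2 : z / (1 + z) ≤ 1 := by rw [div_le_one h1]; linarith
    rw [hg]
    unfold gs
    rw [fx_zeta h.pos.isHermitian hD hz0, fx_abs hp d (by positivity) hs2, hs1, hsum,
      ← mul_sub, Real.div_rpow hz0.le h1.le, Real.inv_rpow h1.le, abs_of_nonneg (by positivity),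
      smul_eq_mul]
    have hzp : 0 < z ^ p := Real.rpow_pos_of_pos hz0 _
    have h1p : 0 < (1 + z) ^ p := Real.rpow_pos_of_pos h1 _
    have e3 : z ^ (3 - p) = z ^ 3 / z ^ p := by
      rw [Real.rpow_sub hz0]
      congr 1
      exact_mod_cast Real.rpow_natCast z 3
    have e4 : wt (z / (1 + z)) = z ^ 3 / ((1 + z) * (1 + 2 * z)) := by
      unfold wt
      have e5 : 1 - (z / (1 + z)) ^ 2 = (1 + 2 * z) / (1 + z) ^ 2 := by field_simp; ring
      rw [e5]
      field_simp
    rw [e3, e4]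
    field_simp
  have hint := (integrableOn_image_iff_integrableOn_abs_deriv_smul measurableSet_Ioi hderiv
    inj_zeta g).1 (by rw [image_zeta]; exact i3)
  have hint2 := icongr hint hcongr
  have hint3 : IntegrableOn (fun v : ℝ => v ^ (3 - p) * (((1 + v) ^ 3)⁻¹ * (1 + 2 * v)⁻¹) *
      (tau p (dg a) D 0 - tau p (dg a) D v)) (Ioi 0) := by
    refine icongr (hint2.const_mul p) (fun r _ => ?_)
    field_simp
  refine ⟨hint3, ?_⟩
  rw [← image_zeta, integral_image_eq_integral_abs_deriv_smul measurableSet_Ioi hderiv inj_zeta g,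
      setIntegral_congr_fun measurableSet_Ioi hcongr, integral_const_mul] at vT
  have hB := Bc_pos h4 h5
  field_simp at vT ⊢
  linarith

end Pool.Agent.RC.REP
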